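import Pool.Agent.U527.Lc.Polygon
import Pool.Agent.Y245.Meet

set_option autoImplicit false

/-!
Kakeya sets whose lines meet a set which is close to curves of low order.
-/

open MeasureTheory Set Filter Topology ENNReal NNReal Metric

namespace Pool.Agent.U527.Lc

open Pool.Agent.H742R2.Kk Pool.Agent.W767.Kc
open Pool.Agent.Y245.PC (poly_le_exp volume_tube_le)

/-- At every scale `δ` the set `Z` is in the `δ`-neighbourhood of a continuous curve of order at most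
`δ ^ (-κ - ε)` up to constants. -/
def NearCurves {n : ℕ} (κ : ℝ) (Z : Set (E n)) : Prop :=
  ∀ ε : ℝ, 0 < ε → ∃ A : ℝ, 0 < A ∧ ∀ δ : ℝ, 0 < δ → δ ≤ 1 →
    ∃ (N : ℕ) (γ : ℝ → E n), Continuous γ ∧ OrderLE N γ ∧ (N:ℝ) ≤ A * δ⁻¹ ^ (κ + ε) ∧
      ∀ z ∈ Z, ∃ t, ‖z - γ t‖ ≤ δ

theorem maxHyp_near {d : ℕ} (hd : 2 ≤ d) {κ : ℝ} (hκ : 0 ≤ κ) {Z : Set (E (d + 1))}
    (hZ : NearCurves κ Z) {S : Set (sphere (0 : E (d + 1)) 1)}
    {a : sphere (0 : E (d + 1)) 1 → E (d + 1)} (ha : ∀ e ∈ S, a e ∈ Z) :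
    Pool.Agent.Y245.Tr.MaxHyp d (d + 1) κ S a := by
  classical
  intro ε hε
  obtain ⟨A, hA, hcov⟩ := hZ (ε / 4) (by positivity)
  obtain ⟨D, hD, hmain⟩ := main_enn d hd
  obtain ⟨P, hP, hpoly⟩ := poly_le_exp (d + 3) (ε := ε / 4) (by positivity)
  set θ : ℝ := (ε / 4) / (κ + ε / 4 + 1) with hθ
  have hθ0 : 0 < θ := by positivity
  obtain ⟨R, hR, hpoly2⟩ := poly_le_exp 2 hθ0
  set B : ℝ := 4 * (1 + ((d:ℝ) + 1) * A) with hB
  have hB0 : 0 < B := by positivity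
  set M0 : ℝ := (2:ℝ) ^ (d * (d + 1)) * ((d:ℝ) + 1) * D.toReal * 2 ^ (d + 3) * (R * B ^ θ) *
    (A + 1) * P with hM0
  have hM00 : 0 ≤ M0 := by
    have := ENNReal.toReal_nonneg (a := D)
    positivity
  refine ⟨M0 + 1, by positivity, ?_⟩
  intro i F hF
  set δ : ℝ := (1 / 2) ^ (i + 1) with hδ
  set Y : ℝ := (2:ℝ) ^ (i + 1) with hY
  have hY1 : 1 ≤ Y := one_le_pow₀ (by norm_num)
  have hY0 : 0 < Y := by linarith
  have hδY : δ⁻¹ = Y := by rw [hδ, hY, one_div, inv_pow, inv_inv]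
  have hδ0 : 0 < δ := by positivity
  have hδ1 : δ ≤ 1 := pow_le_one₀ (by norm_num) (by norm_num)
  obtain ⟨N, γ, hγ, hord, hN, hnear⟩ := hcov δ hδ0 hδ1
  rw [hδY] at hN
  have hJ0 : (1:ℝ) ≤ 2 ^ (i + 1) * δ := by
    rw [hδ, ← mul_pow]; norm_num
  -- the number of dyadic scales for the order
  obtain ⟨J', hJ'1, hJ'2⟩ : ∃ J' : ℕ, 1 + ((d:ℝ) + 1) * N ≤ 2 ^ J' ∧
      (2:ℝ) ^ J' ≤ 2 * (1 + ((d:ℝ) + 1) * N) := by
    set M : ℕ := 1 + (d + 1) * N with hM
    have hMr : (M:ℝ) = 1 + ((d:ℝ) + 1) * N := by rw [hM]; push_cast; ring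
    refine ⟨Nat.clog 2 M, ?_, ?_⟩
    · rw [← hMr]
      exact_mod_cast Nat.le_pow_clog (by norm_num) M
    · rw [← hMr]
      rcases Nat.lt_or_ge 1 M with h | h
      · have h1 := Nat.pow_pred_clog_lt_self (b := 2) (by norm_num) h
        have h2 : 0 < Nat.clog 2 M := Nat.clog_pos (by norm_num) h
        obtain ⟨c, hc⟩ : ∃ c, Nat.clog 2 M = c + 1 := ⟨_, (Nat.succ_pred_eq_of_pos h2).symm⟩
        rw [hc] at h1 ⊢
        simp only [Nat.pred_succ] at h1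
        have h3 : ((2:ℝ) ^ c) < M := by exact_mod_cast h1
        rw [pow_succ]
        linarith
      · have h1 : M = 1 := by omega
        rw [h1]
        simp
  have hFi : Measurable (F.indicator (1 : E (d + 1) → ℝ≥0∞)) := measurable_one.indicator hF
  obtain ⟨G, hGm, hG1, hG2⟩ := hmain N γ hγ hord δ hδ0 hδ1 _ hFi J' (i + 1) hJ'1 hJ0
  have hGpt : ∀ e b : E (d + 1), ∀ t : ℝ, ‖e‖ = 1 →
        ‖(b - γ t) - (inner ℝ (b - γ t) e : ℝ) • e‖ ≤ δ →
        ((volume (tube δ e b))⁻¹ * volume (F ∩ tube δ e b)) ^ (d + 1) ≤ G e := by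
    intro e b t he hb
    have h4 := hG1 e b t he hb
    rwa [lintegral_indicator_one hF, Measure.restrict_apply hF] at h4
  have hGint : ∫⁻ x in closedBall (0 : E (d + 1)) 1, G (‖x‖⁻¹ • x)
        ≤ D * ((((i + 1 : ℕ):ℝ≥0∞) + 1) ^ (d + 1) * ((J':ℝ≥0∞) + ((i + 1 : ℕ):ℝ≥0∞) + 1) ^ 2 *
          ((N:ℝ≥0∞) + 1)) * volume F := by
    refine hG2.trans (le_of_eq ?_)
    congr 1
    rw [← lintegral_indicator_one hF]
    apply lintegral_congr
    intro p
    by_cases hp : p ∈ F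
    · rw [indicator_of_mem hp]; simp
    · rw [indicator_of_notMem hp]; simp
  refine ⟨fun e => (2 ^ d) ^ (d + 1) * G e, ?_, ?_, ?_⟩
  · exact (hGm.comp measurable_subtype_coe).const_mul _
  · intro e he t
    obtain ⟨s, hs⟩ := hnear (a e) (ha e he)
    have he1 : ‖(e : E (d + 1))‖ = 1 := by simp
    set b := a e + t • (e : E (d + 1)) with hb
    have hee : (inner ℝ (e : E (d + 1)) (e : E (d + 1)) : ℝ) = 1 := by
      rw [real_inner_self_eq_norm_sq, he1]; norm_num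
    have h1 : ‖(b - γ s) - (inner ℝ (b - γ s) (e : E (d + 1)) : ℝ) • (e : E (d + 1))‖ ≤ δ := by
      set w := a e - γ s with hw
      have h2 : b - γ s = w + t • (e : E (d + 1)) := by
        rw [hb, hw]; abel
      rw [h2]
      have h3 : (w + t • (e : E (d + 1))) - (inner ℝ (w + t • (e : E (d + 1))) (e : E (d + 1)) : ℝ) •
          (e : E (d + 1)) = w - (inner ℝ w (e : E (d + 1)) : ℝ) • (e : E (d + 1)) := by
        rw [inner_add_left, inner_smul_left, hee]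
        simp only [conj_trivial, mul_one, add_smul]
        abel
      rw [h3]
      have h4 : ‖w - (inner ℝ w (e : E (d + 1)) : ℝ) • (e : E (d + 1))‖ ^ 2 ≤ ‖w‖ ^ 2 := by
        rw [@norm_sub_sq_real, inner_smul_right, norm_smul, he1, mul_one, Real.norm_eq_abs, sq_abs]
        nlinarith [sq_nonneg (inner ℝ w (e : E (d + 1)) : ℝ)]
      exact (abs_le_of_sq_le_sq' h4 (norm_nonneg _)).2.trans hs
    have h2 := hGpt (e : E (d + 1)) b s he1 h1
    have h3 : Pool.Agent.Y245.Tr.av δ F (e : E (d + 1)) b ≤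
        2 ^ d * ((volume (tube δ (e : E (d + 1)) b))⁻¹ * volume (F ∩ tube δ (e : E (d + 1)) b)) := by
      have h4 : volume (tube δ (e : E (d + 1)) b) ≤ 2 ^ d * ENNReal.ofReal δ ^ d := by
        refine (volume_tube_le hδ0 he1).trans (le_of_eq ?_)
        rw [mul_pow, ENNReal.ofReal_mul (by positivity), ENNReal.ofReal_pow (by norm_num),
          ENNReal.ofReal_pow hδ0.le]
        congr 2
        simp
      have hD0 : ENNReal.ofReal δ ^ d ≠ 0 := pow_ne_zero _ (by simpa using hδ0)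
      have hDt : ENNReal.ofReal δ ^ d ≠ ∞ := ENNReal.pow_ne_top ENNReal.ofReal_ne_top
      have h20 : (2:ℝ≥0∞) ^ d ≠ 0 := pow_ne_zero _ (by norm_num)
      have h2t : (2:ℝ≥0∞) ^ d ≠ ∞ := ENNReal.pow_ne_top (by norm_num)
      have h5 : (ENNReal.ofReal δ ^ d)⁻¹ ≤ 2 ^ d * (volume (tube δ (e : E (d + 1)) b))⁻¹ := by
        calc (ENNReal.ofReal δ ^ d)⁻¹ = 2 ^ d * (2 ^ d * ENNReal.ofReal δ ^ d)⁻¹ := by
              rw [ENNReal.mul_inv (Or.inl h20) (Or.inl h2t), ← mul_assoc,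
                ENNReal.mul_inv_cancel h20 h2t, one_mul]
          _ ≤ _ := by gcongr
      unfold Pool.Agent.Y245.Tr.av
      rw [← mul_assoc]
      exact mul_le_mul' h5 le_rfl
    calc Pool.Agent.Y245.Tr.av δ F (e : E (d + 1)) b ^ (d + 1)
        ≤ (2 ^ d * ((volume (tube δ (e : E (d + 1)) b))⁻¹ *
          volume (F ∩ tube δ (e : E (d + 1)) b))) ^ (d + 1) := pow_le_pow_left' h3 _
      _ = (2 ^ d) ^ (d + 1) * ((volume (tube δ (e : E (d + 1)) b))⁻¹ *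
          volume (F ∩ tube δ (e : E (d + 1)) b)) ^ (d + 1) := mul_pow _ _ _
      _ ≤ (2 ^ d) ^ (d + 1) * G e := by gcongr
  · rw [lintegral_const_mul' _ _ (ENNReal.pow_ne_top (ENNReal.pow_ne_top (by norm_num)))]
    set X : ℝ≥0∞ := D * ((((i + 1 : ℕ):ℝ≥0∞) + 1) ^ (d + 1) *
      ((J':ℝ≥0∞) + ((i + 1 : ℕ):ℝ≥0∞) + 1) ^ 2 * ((N:ℝ≥0∞) + 1)) with hX
    have hXr : X = ENNReal.ofReal (D.toReal * ((((i + 1 : ℕ):ℝ) + 1) ^ (d + 1) *
      ((J':ℝ) + ((i + 1 : ℕ):ℝ) + 1) ^ 2 * ((N:ℝ) + 1))) := by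
      rw [ENNReal.ofReal_mul ENNReal.toReal_nonneg, ENNReal.ofReal_toReal hD, hX]
      congr 1
      rw [ENNReal.ofReal_mul (by positivity), ENNReal.ofReal_mul (by positivity),
        ENNReal.ofReal_pow (by positivity), ENNReal.ofReal_pow (by positivity)]
      have e1 : ENNReal.ofReal (((i + 1 : ℕ):ℝ) + 1) = ((i + 1 : ℕ):ℝ≥0∞) + 1 := by
        rw [ENNReal.ofReal_add (by positivity) (by norm_num), ENNReal.ofReal_natCast,
          ENNReal.ofReal_one]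
      have e2 : ENNReal.ofReal ((J':ℝ) + ((i + 1 : ℕ):ℝ) + 1) =
          (J':ℝ≥0∞) + ((i + 1 : ℕ):ℝ≥0∞) + 1 := by
        rw [ENNReal.ofReal_add (by positivity) (by norm_num),
          ENNReal.ofReal_add (by positivity) (by positivity), ENNReal.ofReal_natCast,
          ENNReal.ofReal_natCast, ENNReal.ofReal_one]
      have e3 : ENNReal.ofReal ((N:ℝ) + 1) = (N:ℝ≥0∞) + 1 := by
        rw [ENNReal.ofReal_add (by positivity) (by norm_num), ENNReal.ofReal_natCast,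
          ENNReal.ofReal_one]
      rw [e1, e2, e3]
    have h1 : ∫⁻ e : sphere (0 : E (d + 1)) 1, G e
        ∂(volume : Measure (E (d + 1))).toSphere ≤ ((d:ℝ≥0∞) + 1) * (X * volume F) := by
      refine (sphere_le_ball d hGm).trans ?_
      gcongr
    -- collect the constants
    have hreal : ((2:ℝ) ^ d) ^ (d + 1) * (((d:ℝ) + 1) *
        (D.toReal * ((((i + 1 : ℕ):ℝ) + 1) ^ (d + 1) *
      ((J':ℝ) + ((i + 1 : ℕ):ℝ) + 1) ^ 2 * ((N:ℝ) + 1)))) ≤
        (M0 + 1) * Y ^ (κ + ε) := by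
      set x : ℝ := (i:ℝ) + 1 with hx
      have hx1 : 1 ≤ x := by
        have : (0:ℝ) ≤ i := by positivity
        rw [hx]; linarith
      have hJ'0 : (0:ℝ) ≤ J' := by positivity
      have e1 : (((i + 1 : ℕ):ℝ) + 1) ≤ 2 * x := by push_cast; rw [hx] at hx1 ⊢; linarith
      have e2 : ((J':ℝ) + ((i + 1 : ℕ):ℝ) + 1) ≤ ((J':ℝ) + 1) * (2 * x) := by
        push_cast
        have h3 : (J':ℝ) ≤ J' * (2 * x) := by nlinarith
        rw [← hx]
        nlinarith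
      have e3 : (N:ℝ) + 1 ≤ (A + 1) * Y ^ (κ + ε / 4) := by
        have h3 : 1 ≤ Y ^ (κ + ε / 4) := Real.one_le_rpow hY1 (by positivity)
        nlinarith
      have e4 : ((J':ℝ) + 1) ^ 2 ≤ R * B ^ θ * Y ^ (ε / 4) := by
        refine (hpoly2 J').trans ?_
        have h3 : (2:ℝ) ^ (J' + 1) ≤ B * Y ^ (κ + ε / 4) := by
          rw [pow_succ, hB]
          have h4 : 1 ≤ Y ^ (κ + ε / 4) := Real.one_le_rpow hY1 (by positivity)
          have h5 : ((d:ℝ) + 1) * N ≤ ((d:ℝ) + 1) * (A * Y ^ (κ + ε / 4)) := by gcongr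
          nlinarith
        have h4 : ((2:ℝ) ^ (J' + 1)) ^ θ ≤ B ^ θ * Y ^ (ε / 4) := by
          calc ((2:ℝ) ^ (J' + 1)) ^ θ ≤ (B * Y ^ (κ + ε / 4)) ^ θ :=
                Real.rpow_le_rpow (by positivity) h3 hθ0.le
            _ = B ^ θ * Y ^ ((κ + ε / 4) * θ) := by
                rw [Real.mul_rpow hB0.le (by positivity), ← Real.rpow_mul hY0.le]
            _ ≤ B ^ θ * Y ^ (ε / 4) := by
                refine mul_le_mul_of_nonneg_left
                  (Real.rpow_le_rpow_of_exponent_le hY1 ?_) (by positivity)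
                rw [hθ, mul_div_assoc', div_le_iff₀ (by positivity)]
                nlinarith
        calc R * ((2:ℝ) ^ (J' + 1)) ^ θ ≤ R * (B ^ θ * Y ^ (ε / 4)) := by gcongr
          _ = _ := by ring
      have e5 := hpoly i
      rw [← hx, ← hY] at e5
      have hD' : 0 ≤ D.toReal := ENNReal.toReal_nonneg
      have e6 : Y ^ (κ + ε / 4) * Y ^ (ε / 4) * Y ^ (ε / 4) ≤ Y ^ (κ + ε) := by
        rw [← Real.rpow_add hY0, ← Real.rpow_add hY0]
        apply Real.rpow_le_rpow_of_exponent_le hY1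
        linarith
      have hB' : 0 ≤ B ^ θ := by positivity
      calc ((2:ℝ) ^ d) ^ (d + 1) * (((d:ℝ) + 1) *
            (D.toReal * ((((i + 1 : ℕ):ℝ) + 1) ^ (d + 1) *
            ((J':ℝ) + ((i + 1 : ℕ):ℝ) + 1) ^ 2 * ((N:ℝ) + 1))))
          ≤ ((2:ℝ) ^ d) ^ (d + 1) * (((d:ℝ) + 1) *
            (D.toReal * ((2 * x) ^ (d + 1) * (((J':ℝ) + 1) * (2 * x)) ^ 2 *
              ((A + 1) * Y ^ (κ + ε / 4))))) := by
            gcongr
        _ = (2:ℝ) ^ (d * (d + 1)) * ((d:ℝ) + 1) * D.toReal * 2 ^ (d + 3) * (A + 1) *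
              (((J':ℝ) + 1) ^ 2 * x ^ (d + 3) * Y ^ (κ + ε / 4)) := by
            rw [← pow_mul, mul_pow, mul_pow, mul_pow, pow_add x (d + 1) 2, pow_add (2:ℝ) (d + 1) 2]
            ring
        _ ≤ (2:ℝ) ^ (d * (d + 1)) * ((d:ℝ) + 1) * D.toReal * 2 ^ (d + 3) * (A + 1) *
              ((R * B ^ θ * Y ^ (ε / 4)) * (P * Y ^ (ε / 4)) * Y ^ (κ + ε / 4)) := by
            gcongr
        _ = M0 * (Y ^ (κ + ε / 4) * Y ^ (ε / 4) * Y ^ (ε / 4)) := by
            rw [hM0]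
            ring
        _ ≤ M0 * Y ^ (κ + ε) := by gcongr
        _ ≤ (M0 + 1) * Y ^ (κ + ε) := by
            gcongr
            linarith
    calc (2 ^ d) ^ (d + 1) * ∫⁻ e : sphere (0 : E (d + 1)) 1, G e
        ∂(volume : Measure (E (d + 1))).toSphere
        ≤ (2 ^ d) ^ (d + 1) * (((d:ℝ≥0∞) + 1) * (X * volume F)) := by
          gcongr
      _ = ENNReal.ofReal (((2:ℝ) ^ d) ^ (d + 1) * (((d:ℝ) + 1) *
        (D.toReal * ((((i + 1 : ℕ):ℝ) + 1) ^ (d + 1) *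
      ((J':ℝ) + ((i + 1 : ℕ):ℝ) + 1) ^ 2 * ((N:ℝ) + 1))))) * volume F := by
          have hD' : 0 ≤ D.toReal := ENNReal.toReal_nonneg
          rw [ENNReal.ofReal_mul (p := ((2:ℝ) ^ d) ^ (d + 1)) (by positivity),
            ENNReal.ofReal_mul (p := ((d:ℝ) + 1)) (by positivity), ← hXr]
          have e1 : ENNReal.ofReal (((2:ℝ) ^ d) ^ (d + 1)) = (2 ^ d) ^ (d + 1) := by
            rw [ENNReal.ofReal_pow (by positivity), ENNReal.ofReal_pow (by positivity)]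
            simp
          have e2 : ENNReal.ofReal ((d:ℝ) + 1) = (d:ℝ≥0∞) + 1 := by
            rw [ENNReal.ofReal_add (by positivity) (by norm_num), ENNReal.ofReal_natCast,
              ENNReal.ofReal_one]
          rw [e1, e2]
          ring
      _ ≤ _ := by
          gcongr

/-- Kakeya sets whose lines meet a countable union of sets near curves of low order. -/
theorem dim_near {d : ℕ} (hd : 2 ≤ d) {κ : ℝ} (hκ : 0 ≤ κ) {Z : ℕ → Set (E (d + 1))}
    (hZ : ∀ j, NearCurves κ (Z j)) {S : Set (sphere (0 : E (d + 1)) 1)}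
    (hS : (volume : Measure (E (d + 1))).toSphere S ≠ 0) {K : Set (E (d + 1))}
    (hK : ∀ e ∈ S, ∃ z ∈ ⋃ j, Z j, volume {t : ℝ | z + t • (e : E (d + 1)) ∈ K} ≠ 0) :
    ENNReal.ofReal ((d:ℝ) + 1 - κ) ≤ dimH K := by
  classical
  have hz : ∀ e : sphere (0 : E (d + 1)) 1, ∃ z : E (d + 1), e ∈ S →
      z ∈ (⋃ j, Z j) ∧ volume {t : ℝ | z + t • (e : E (d + 1)) ∈ K} ≠ 0 := by
    intro e
    by_cases he : e ∈ S
    · obtain ⟨z, h1, h2⟩ := hK e he
      exact ⟨z, fun _ => ⟨h1, h2⟩⟩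
    · exact ⟨0, fun h => absurd h he⟩
  choose a ha using hz
  set S' : ℕ → Set (sphere (0 : E (d + 1)) 1) := fun q => {e | e ∈ S ∧ a e ∈ Z q} with hS'
  have hcov : S ⊆ ⋃ q, S' q := by
    intro e he
    obtain ⟨j, hj⟩ := mem_iUnion.1 (ha e he).1
    exact mem_iUnion.2 ⟨j, he, hj⟩
  have hex : ∃ q, (volume : Measure (E (d + 1))).toSphere (S' q) ≠ 0 := by
    by_contra hcon
    push Not at hcon
    exact hS (measure_mono_null hcov (measure_iUnion_null hcon))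
  obtain ⟨q, hq⟩ := hex
  have h1 := maxHyp_near hd hκ (hZ q) (S := S' q) (a := a) (fun e he => he.2)
  exact Pool.Agent.Y245.Tr.dim_ge hq h1 (fun e he => (ha e he.1).2)

end Pool.Agent.U527.Lc
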