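import Pool.Agent.U527.Lc.Net

/-!
# One hyperplane section of a set which contains a line in every direction
-/

set_option autoImplicit false

open MeasureTheory Set Filter Topology ENNReal NNReal Metric
open scoped Pointwise

namespace Pool.Agent.U527.Lc

open Pool.Agent.H742R2.Kk Pool.Agent.W767.Kc

/-- A set which contains a line in every direction, and one hyperplane section. -/
theorem dim_full {n : ℕ} (hn : 2 ≤ n) {s : ℝ} (hs : 0 ≤ s) {v : E (n + 1)} (hv : v ≠ 0) (q : ℝ)
    {K : Set (E (n + 1))} (hQ : PackLE s (K ∩ {x | inner ℝ v x = q}))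
    {S : Set (sphere (0 : E (n + 1)) 1)}
    (hS : (volume : Measure (E (n + 1))).toSphere S ≠ 0)
    (hK : ∀ e ∈ S, ∃ a : E (n + 1), ∀ t : ℝ, a + t • (e : E (n + 1)) ∈ K) :
    ENNReal.ofReal ((n:ℝ) + 1 - s * (1 - 1 / (n:ℝ))) ≤ dimH K := by
  classical
  have hvv : 0 < (inner ℝ v v : ℝ) := by
    rw [real_inner_self_eq_norm_sq]
    have := norm_pos_iff.2 hv
    positivity
  -- the directions parallel to the hyperplane are negligible
  have hnull : (volume : Measure (E (n + 1))).toSphere
      {e : sphere (0 : E (n + 1)) 1 | inner ℝ v (e : E (n + 1)) = (0:ℝ)} = 0 := by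
    have hm : MeasurableSet {e : sphere (0 : E (n + 1)) 1 | inner ℝ v (e : E (n + 1)) = (0:ℝ)} := by
      apply measurableSet_eq_fun
      · fun_prop
      · exact measurable_const
    rw [Measure.toSphere_apply' _ hm]
    have h1 : volume ((ℝ ∙ v)ᗮ : Submodule ℝ (E (n + 1))).carrier = 0 := by
      apply Measure.addHaar_submodule
      intro htop
      have h2 := finrank_perp hv
      rw [htop, finrank_top] at h2
      simp at h2
    have h2 : Ioo (0:ℝ) 1 • ((↑) '' {e : sphere (0 : E (n + 1)) 1 |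
        inner ℝ v (e : E (n + 1)) = (0:ℝ)} : Set (E (n + 1))) ⊆
        ((ℝ ∙ v)ᗮ : Submodule ℝ (E (n + 1))).carrier := by
      rintro _ ⟨c, -, _, ⟨e, he, rfl⟩, rfl⟩
      have h3 : (e : E (n + 1)) ∈ ((ℝ ∙ v)ᗮ : Submodule ℝ (E (n + 1))) := by
        rw [Submodule.mem_orthogonal_singleton_iff_inner_right]
        exact he
      exact Submodule.smul_mem _ c h3
    rw [measure_mono_null h2 h1, mul_zero]
  set S' : Set (sphere (0 : E (n + 1)) 1) :=
    S \ {e : sphere (0 : E (n + 1)) 1 | inner ℝ v (e : E (n + 1)) = (0:ℝ)} with hS'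
  have hS'0 : (volume : Measure (E (n + 1))).toSphere S' ≠ 0 := by
    intro h0
    apply hS
    refine measure_mono_null (t := S' ∪ {e | inner ℝ v (e : E (n + 1)) = (0:ℝ)}) ?_
      (measure_union_null h0 hnull)
    intro e he
    by_cases h : inner ℝ v (e : E (n + 1)) = (0:ℝ)
    · exact Or.inr h
    · exact Or.inl ⟨he, h⟩
  refine dim_pack hn (d := n) (by omega) hs hQ (fun _ => (q / inner ℝ v v : ℝ) • v)
    (fun _ => ((ℝ ∙ v)ᗮ : Submodule ℝ (E (n + 1)))) (fun _ => (finrank_perp hv).le) ?_ hS'0 ?_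
  · intro z hz
    refine ⟨0, ?_⟩
    rw [Submodule.mem_orthogonal_singleton_iff_inner_right]
    have h1 : inner ℝ v z = q := hz.2
    rw [inner_sub_right, inner_smul_right, h1]
    field_simp
    ring
  · intro e he
    obtain ⟨a, haK⟩ := hK e he.1
    have hve : inner ℝ v (e : E (n + 1)) ≠ (0:ℝ) := he.2
    set c : ℝ := inner ℝ v (e : E (n + 1)) with hc
    refine ⟨a + ((q - inner ℝ v a) / c) • (e : E (n + 1)), ⟨haK _, ?_⟩, ?_⟩
    · show inner ℝ v (a + ((q - inner ℝ v a) / c) • (e : E (n + 1))) = q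
      rw [inner_add_right, inner_smul_right, ← hc]
      field_simp
      ring
    · have hsub : (univ : Set ℝ) ⊆ {t : ℝ | a + ((q - inner ℝ v a) / c) • (e : E (n + 1)) +
          t • (e : E (n + 1)) ∈ K} := by
        intro t _
        have : a + ((q - inner ℝ v a) / c) • (e : E (n + 1)) + t • (e : E (n + 1))
            = a + ((q - inner ℝ v a) / c + t) • (e : E (n + 1)) := by
          rw [add_smul]; abel
        rw [mem_ofPred_eq, this]
        exact haK _
      intro h0
      have h1 := measure_mono_null hsub h0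
      rw [Real.volume_univ] at h1
      exact ENNReal.top_ne_zero h1

end Pool.Agent.U527.Lc
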