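import Pool.Agent.U527.Lc.Polygon
import Pool.Agent.U527.Srf.Sharp

set_option autoImplicit false

/-!
The Kakeya maximal function over the tubes whose axes meet a set covered by `N` balls.
-/

open MeasureTheory Set Filter Topology ENNReal NNReal Metric

namespace Pool.Agent.U527.Lc

open Pool.Agent.H742R2.Kk Pool.Agent.W767.Kc

/-- Supremum of the averages of `|f|` over the `δ`-tubes with direction `e` whose axis line
meets `Z`. -/
noncomputable def lMax {n : ℕ} (δ : ℝ) (Z : Set (E n)) (f : E n → ℝ) (e : E n) : ℝ≥0∞ :=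
  ⨆ (z : E n) (_ : z ∈ Z) (t : ℝ),
    (volume (tube δ e (z + t • e)))⁻¹ * ∫⁻ y in tube δ e (z + t • e), ‖f y‖ₑ

theorem lMax_le_sMax {n : ℕ} {δ : ℝ} {Z S : Set (E n)} {f : E n → ℝ} {e : E n} (he : ‖e‖ = 1)
    (hZS : ∀ z ∈ Z, ∃ x ∈ S, ‖z - x‖ ≤ δ) :
    lMax δ Z f e ≤ Pool.Agent.U527.Srf.sMax δ S f e := by
  unfold lMax
  refine iSup_le fun z => iSup_le fun hz => iSup_le fun t => ?_
  obtain ⟨x, hx, hzx⟩ := hZS z hz
  unfold Pool.Agent.U527.Srf.sMax
  have hee : (inner ℝ e e : ℝ) = 1 := by rw [real_inner_self_eq_norm_sq, he]; norm_num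
  have h1 : ‖(z + t • e - x) - (inner ℝ (z + t • e - x) e : ℝ) • e‖ ≤ δ := by
    set w := z - x with hw
    have h2 : z + t • e - x = w + t • e := by rw [hw]; abel
    rw [h2]
    have h3 : (w + t • e) - (inner ℝ (w + t • e) e : ℝ) • e = w - (inner ℝ w e : ℝ) • e := by
      rw [inner_add_left, inner_smul_left, hee]
      simp only [conj_trivial, mul_one, add_smul]
      abel
    rw [h3]
    have h4 : ‖w - (inner ℝ w e : ℝ) • e‖ ^ 2 ≤ ‖w‖ ^ 2 := by
      rw [@norm_sub_sq_real, inner_smul_right, norm_smul, he, mul_one, Real.norm_eq_abs, sq_abs]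
      nlinarith [sq_nonneg (inner ℝ w e : ℝ)]
    exact (abs_le_of_sq_le_sq' h4 (norm_nonneg _)).2.trans hzx
  exact le_iSup_of_le (z + t • e) (le_iSup_of_le x (le_iSup_of_le hx (le_iSup_of_le h1 le_rfl)))

/-- **The maximal estimate.** -/
theorem max_est (m : ℕ) (hm : 2 ≤ m) : ∃ C : ℝ, 0 < C ∧
    ∀ (d : ℕ) (D : Submodule ℝ (E (m + 1))) (x₀ : E (m + 1)) (Z : Set (E (m + 1))) (N : ℕ) (δ : ℝ)
      (f : E (m + 1) → ℝ) (p : ℝ),
      1 ≤ d → Module.finrank ℝ D ≤ d → (∀ z ∈ Z, z - x₀ ∈ D) → 1 ≤ N →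
      (∃ P : Finset (E (m + 1)), P.card ≤ N ∧ ∀ z ∈ Z, ∃ y ∈ P, ‖z - y‖ ≤ δ) →
      0 < δ → δ < 1 → AEMeasurable f volume → ((m + 1 : ℕ) : ℝ) ≤ p →
      ∫⁻ e : sphere (0 : E (m + 1)) 1, lMax δ Z f e ^ p
          ∂(volume : Measure (E (m + 1))).toSphere
        ≤ ENNReal.ofReal (C * (N : ℝ) ^ (1 - 1 / (d:ℝ)) * (1 + Real.log N) ^ 4
            * (1 + Real.log (1 / δ)) ^ (m + 3)) * ∫⁻ y, ‖f y‖ₑ ^ p := by
  classical
  obtain ⟨C₀, hC₀, hup⟩ := Pool.Agent.U527.Srf.upper m 0 (m + 1) (by omega) (by omega) 1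
  set b : ℝ := 5 * ((m:ℝ) + 8) with hb
  have hb1 : 1 ≤ b := by
    have : (0:ℝ) ≤ m := by positivity
    rw [hb]; linarith
  have hlb : 0 ≤ Real.log b := Real.log_nonneg hb1
  refine ⟨C₀ * b * (3 + Real.log b) ^ 2, by positivity, ?_⟩
  intro d D x₀ Z N δ f p hd hD hZD hN1 hcov hδ hδ1 hf hp
  have hp0 : 0 < p := by
    have : (0:ℝ) < ((m + 1 : ℕ) : ℝ) := by positivity
    linarith
  rcases Z.eq_empty_or_nonempty with rfl | hZne
  · have h0 : ∀ e : E (m + 1), lMax δ (∅ : Set (E (m + 1))) f e = 0 := by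
      intro e
      unfold lMax
      simp
    simp only [h0, ENNReal.zero_rpow_of_pos hp0, lintegral_zero]
    exact zero_le
  obtain ⟨P, hPN, hPZ⟩ := hcov
  -- project the centres to the affine space
  set π : E (m + 1) → E (m + 1) := fun y => x₀ + D.starProjection (y - x₀) with hπ
  set P' : Finset (E (m + 1)) := P.image π with hP'
  have hP'D : ∀ y ∈ P', y - x₀ ∈ D := by
    intro y hy
    obtain ⟨w, -, rfl⟩ := Finset.mem_image.1 hy
    simp only [hπ, add_sub_cancel_left]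
    exact Submodule.starProjection_apply_mem D _
  have hP'Z : ∀ z ∈ Z, ∃ y ∈ P', ‖z - y‖ ≤ δ := by
    intro z hz
    obtain ⟨y, hy, hzy⟩ := hPZ z hz
    refine ⟨π y, Finset.mem_image_of_mem _ hy, ?_⟩
    have h1 : z - π y = D.starProjection (z - y) := by
      have h2 : D.starProjection (z - x₀) = z - x₀ :=
        Submodule.starProjection_eq_self_iff.2 (hZD z hz)
      have h3 : z - y = (z - x₀) - (y - x₀) := by abel
      rw [h3, map_sub, h2]
      simp only [hπ]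
      abel
    rw [h1]
    refine (Submodule.norm_starProjection_apply_le D _).trans hzy
  have hP'ne : P'.Nonempty := by
    obtain ⟨z, hz⟩ := hZne
    obtain ⟨y, hy, -⟩ := hP'Z z hz
    exact ⟨y, hy⟩
  have hP'N : P'.card ≤ N := Finset.card_image_le.trans hPN
  obtain ⟨M, γ, hγ, hord, hthru, hM⟩ := curve_through hd D hD x₀ P' hP'ne hP'D
  set S : Set (E (m + 1)) := range γ with hS
  have hCov : Pool.Agent.U527.Srf.Cov 0 M 1 S := by
    refine ⟨univ, fun _ => γ, ⟨fun _ _ => hγ, fun _ _ => hord, ?_, ?_⟩, ?_⟩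
    · intro u _ u' _ t
      simp only [sub_self, norm_zero]
      positivity
    · intro u _ u' _ t t'
      have : u = u' := Subsingleton.elim _ _
      rw [this, sub_self, norm_zero]
      positivity
    · rintro x ⟨t, rfl⟩
      exact ⟨0, mem_univ _, t, rfl⟩
  have hmain := hup M S δ f p hCov hδ hδ1 hf hp
  have hle : ∀ e : sphere (0 : E (m + 1)) 1, lMax δ Z f e ^ p ≤
      Pool.Agent.U527.Srf.sMax δ S f e ^ p := by
    intro e
    apply ENNReal.rpow_le_rpow _ hp0.le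
    apply lMax_le_sMax (by simp)
    intro z hz
    obtain ⟨y, hy, hzy⟩ := hP'Z z hz
    obtain ⟨t, ht⟩ := hthru y hy
    exact ⟨y, ⟨t, ht⟩, hzy⟩
  refine (lintegral_mono hle).trans (hmain.trans ?_)
  refine mul_le_mul' (ENNReal.ofReal_le_ofReal ?_) le_rfl
  -- the constants
  have hNr : (1:ℝ) ≤ N := by exact_mod_cast hN1
  have hlogN : 0 ≤ Real.log N := Real.log_nonneg hNr
  have hd0 : (0:ℝ) < d := by exact_mod_cast hd
  have hd1 : (1:ℝ) ≤ d := by exact_mod_cast hd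
  have hα : 0 ≤ 1 - 1 / (d:ℝ) := by
    rw [sub_nonneg, div_le_one hd0]
    exact hd1
  have hα1 : 1 - 1 / (d:ℝ) ≤ 1 := by
    have : 0 ≤ 1 / (d:ℝ) := by positivity
    linarith
  have hPc : (1:ℝ) ≤ P'.card := by exact_mod_cast hP'ne.card_pos
  have hPcN : (P'.card : ℝ) ≤ N := by exact_mod_cast hP'N
  have hNα : 1 ≤ (N:ℝ) ^ (1 - 1 / (d:ℝ)) := Real.one_le_rpow hNr hα
  set Y : ℝ := (N:ℝ) ^ (1 - 1 / (d:ℝ)) * (1 + Real.log N) ^ 2 with hY
  have hM2 : (M:ℝ) ≤ 4 * ((m:ℝ) + 8) * Y := by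
    refine hM.trans ?_
    rw [hY]
    push_cast
    have h1 : (P'.card : ℝ) ^ (1 - 1 / (d:ℝ)) ≤ (N:ℝ) ^ (1 - 1 / (d:ℝ)) :=
      Real.rpow_le_rpow (by linarith) hPcN hα
    have h2 : Real.log P'.card ≤ Real.log N := Real.log_le_log (by linarith) hPcN
    have h3 : 0 ≤ Real.log P'.card := Real.log_nonneg hPc
    have h4 : (m:ℝ) + 1 + 7 = m + 8 := by ring
    rw [h4]
    gcongr
  have hY1 : 1 ≤ Y := by
    rw [hY]
    have : 1 ≤ (1 + Real.log N) ^ 2 := one_le_pow₀ (by linarith)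
    nlinarith
  have hM3 : (M:ℝ) + 1 ≤ b * Y := by
    have : (0:ℝ) ≤ m := by positivity
    rw [hb]
    nlinarith
  have hM4 : 1 + Real.log ((M:ℝ) + 1) ≤ (3 + Real.log b) * (1 + Real.log N) := by
    have hM0 : (0:ℝ) ≤ M := by positivity
    have h1 : Real.log ((M:ℝ) + 1) ≤ Real.log (b * Y) := Real.log_le_log (by linarith) hM3
    have h2 : Real.log (b * Y) = Real.log b + ((1 - 1 / (d:ℝ)) * Real.log N +
        2 * Real.log (1 + Real.log N)) := by
      have hlY : Real.log Y = (1 - 1 / (d:ℝ)) * Real.log N + 2 * Real.log (1 + Real.log N) := by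
        rw [hY, Real.log_mul (by positivity) (by positivity), Real.log_rpow (by linarith),
          Real.log_pow]
        norm_num
      have hb0 : b ≠ 0 := by linarith
      have hY0 : Y ≠ 0 := by linarith
      rw [Real.log_mul hb0 hY0, hlY]
    have h3 : Real.log (1 + Real.log N) ≤ Real.log N := by
      have := Real.log_le_sub_one_of_pos (by linarith : 0 < 1 + Real.log N)
      linarith
    have h4 : (1 - 1 / (d:ℝ)) * Real.log N ≤ Real.log N := by nlinarith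
    have h5 : 0 ≤ Real.log b * Real.log N := by positivity
    rw [h2] at h1
    nlinarith
  have hlogM : 0 ≤ Real.log ((M:ℝ) + 1) := Real.log_nonneg (by
    have : (0:ℝ) ≤ M := by positivity
    linarith)
  have hlogδ : 0 ≤ Real.log (1 / δ) := Real.log_nonneg (by
    rw [le_div_iff₀ hδ]; linarith)
  calc C₀ * ((M:ℝ) + 1) * (1 + Real.log ((M:ℝ) + 1)) ^ 2 * (1 + Real.log (1 / δ)) ^ (m + 1 + 2) *
        (1 / δ) ^ 0
      ≤ C₀ * (b * Y) * ((3 + Real.log b) * (1 + Real.log N)) ^ 2 *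
        (1 + Real.log (1 / δ)) ^ (m + 1 + 2) * (1 / δ) ^ 0 := by
        gcongr
    _ = _ := by
        rw [hY, pow_zero]
        ring

end Pool.Agent.U527.Lc
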