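import Pool.Agent.U527.Lc.Dim

set_option autoImplicit false

/-!
Kakeya sets whose lines meet a set of small packing dimension in countably many planes.
-/

open MeasureTheory Set Filter Topology ENNReal NNReal Metric
open scoped Pointwise

namespace Pool.Agent.U527.Lc

open Pool.Agent.H742R2.Kk Pool.Agent.W767.Kc

/-- A set of upper box dimension at most `s` in an affine plane of dimension `d` is close to curves
of order `δ ^ (-(1 - 1/d) s)`. -/
theorem near_of_box {n d : ℕ} (hd : 1 ≤ d) (D : Submodule ℝ (E n)) (hD : Module.finrank ℝ D ≤ d)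
    (x₀ : E n) {Z : Set (E n)} (hZD : ∀ z ∈ Z, z - x₀ ∈ D) {s : ℝ} (hs : 0 ≤ s)
    (hbox : ∃ C : ℝ, ∀ δ : ℝ, 0 < δ → δ ≤ 1 → ∃ P : Finset (E n),
      (P.card : ℝ) ≤ C * δ ^ (-s) ∧ ∀ z ∈ Z, ∃ y ∈ P, ‖z - y‖ ≤ δ) :
    NearCurves (s * (1 - 1 / (d:ℝ))) Z := by
  classical
  intro ε hε
  obtain ⟨C, hC⟩ := hbox
  have hd0 : (0:ℝ) < d := by exact_mod_cast hd
  have hd1 : (1:ℝ) ≤ d := by exact_mod_cast hd
  have hα : 0 ≤ 1 - 1 / (d:ℝ) := by
    rw [sub_nonneg, div_le_one hd0]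
    exact hd1
  set α : ℝ := 1 - 1 / (d:ℝ) with hαd
  set η : ℝ := ε / (2 * (s + 1)) with hη
  have hη0 : 0 < η := by positivity
  set B : ℝ := |C| + 1 with hB
  have hB1 : 1 ≤ B := by
    have := abs_nonneg C
    rw [hB]; linarith
  refine ⟨4 * ((n:ℝ) + 7) * (1 + 1 / η) ^ 2 * B ^ (α + 2 * η), by positivity, ?_⟩
  intro δ hδ hδ1
  obtain ⟨P, hPc, hPZ⟩ := hC δ hδ hδ1
  set π : E n → E n := fun y => x₀ + D.starProjection (y - x₀) with hπ
  set P' : Finset (E n) := insert x₀ (P.image π) with hP'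
  have hP'D : ∀ y ∈ P', y - x₀ ∈ D := by
    intro y hy
    rcases Finset.mem_insert.1 hy with rfl | hy
    · simp
    · obtain ⟨w, -, rfl⟩ := Finset.mem_image.1 hy
      simp only [hπ, add_sub_cancel_left]
      exact Submodule.starProjection_apply_mem D _
  have hP'Z : ∀ z ∈ Z, ∃ y ∈ P', ‖z - y‖ ≤ δ := by
    intro z hz
    obtain ⟨y, hy, hzy⟩ := hPZ z hz
    refine ⟨π y, Finset.mem_insert_of_mem (Finset.mem_image_of_mem _ hy), ?_⟩
    have h1 : z - π y = D.starProjection (z - y) := by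
      have h2 : D.starProjection (z - x₀) = z - x₀ :=
        Submodule.starProjection_eq_self_iff.2 (hZD z hz)
      have h3 : z - y = (z - x₀) - (y - x₀) := by abel
      rw [h3, map_sub, h2]
      simp only [hπ]
      abel
    rw [h1]
    exact (Submodule.norm_starProjection_apply_le D _).trans hzy
  have hP'ne : P'.Nonempty := ⟨x₀, Finset.mem_insert_self _ _⟩
  obtain ⟨N, γ, hγ, hord, hthru, hN⟩ := curve_through hd D hD x₀ P' hP'ne hP'D
  refine ⟨N, γ, hγ, hord, ?_, ?_⟩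
  · set x : ℝ := B * δ ^ (-s) with hx
    have hδs : 1 ≤ δ ^ (-s) := by
      apply Real.one_le_rpow_of_pos_of_le_one_of_nonpos hδ hδ1
      linarith
    have hx1 : 1 ≤ x := by
      rw [hx]; nlinarith
    have hx0 : 0 < x := by linarith
    have hcard : (P'.card : ℝ) ≤ x := by
      have h1 : (P'.card : ℝ) ≤ P.card + 1 := by
        have h2 : P'.card ≤ P.card + 1 :=
          (Finset.card_insert_le x₀ (P.image π)).trans
            (Nat.add_le_add_right Finset.card_image_le 1)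
        exact_mod_cast h2
      have h3 : C * δ ^ (-s) ≤ |C| * δ ^ (-s) := by
        gcongr
        exact le_abs_self C
      rw [hx, hB, add_mul, one_mul]
      linarith
    have hPc1 : (1:ℝ) ≤ P'.card := by exact_mod_cast hP'ne.card_pos
    have h1 : (P'.card : ℝ) ^ α ≤ x ^ α := Real.rpow_le_rpow (by linarith) hcard hα
    have h2 : Real.log P'.card ≤ x ^ η / η :=
      (Real.log_le_log (by linarith) hcard).trans (Real.log_le_rpow_div hx0.le hη0)
    have h3 : 0 ≤ Real.log P'.card := Real.log_nonneg hPc1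
    have h4 : 1 + Real.log P'.card ≤ (1 + 1 / η) * x ^ η := by
      have h5 : 1 ≤ x ^ η := Real.one_le_rpow hx1 hη0.le
      have h6 : x ^ η / η = 1 / η * x ^ η := by ring
      rw [h6] at h2
      nlinarith
    have h5 : (1 + Real.log P'.card) ^ 2 ≤ (1 + 1 / η) ^ 2 * x ^ (2 * η) := by
      have h6 : (1 + Real.log P'.card) ^ 2 ≤ ((1 + 1 / η) * x ^ η) ^ 2 := by gcongr
      refine h6.trans (le_of_eq ?_)
      rw [mul_pow, ← Real.rpow_natCast (x ^ η) 2, ← Real.rpow_mul hx0.le]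
      congr 2
      push_cast; ring
    have hNx : (N:ℝ) ≤ 4 * ((n:ℝ) + 7) * (1 + 1 / η) ^ 2 * x ^ (α + 2 * η) := by
      refine hN.trans ?_
      calc 4 * ((n:ℝ) + 7) * ((P'.card : ℝ) ^ α * (1 + Real.log P'.card) ^ 2)
          ≤ 4 * ((n:ℝ) + 7) * (x ^ α * ((1 + 1 / η) ^ 2 * x ^ (2 * η))) := by gcongr
        _ = _ := by
            rw [Real.rpow_add hx0]
            ring
    refine hNx.trans ?_
    have hxe : x ^ (α + 2 * η) ≤ B ^ (α + 2 * η) * δ⁻¹ ^ (s * α + ε) := by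
      rw [hx, Real.mul_rpow (by linarith) (by positivity), ← Real.rpow_mul hδ.le]
      gcongr
      rw [Real.inv_rpow hδ.le, ← Real.rpow_neg hδ.le]
      apply Real.rpow_le_rpow_of_exponent_ge hδ hδ1
      have h7 : s * (2 * η) ≤ ε := by
        rw [hη]
        have h8 : s * (2 * (ε / (2 * (s + 1)))) = ε * (s / (s + 1)) := by
          field_simp
        rw [h8]
        have h9 : s / (s + 1) ≤ 1 := by
          rw [div_le_one (by positivity)]; linarith
        nlinarith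
      nlinarith
    calc 4 * ((n:ℝ) + 7) * (1 + 1 / η) ^ 2 * x ^ (α + 2 * η)
        ≤ 4 * ((n:ℝ) + 7) * (1 + 1 / η) ^ 2 * (B ^ (α + 2 * η) * δ⁻¹ ^ (s * α + ε)) := by
          gcongr
      _ = _ := by ring
  · intro z hz
    obtain ⟨y, hy, hzy⟩ := hP'Z z hz
    obtain ⟨t, ht⟩ := hthru y hy
    exact ⟨t, by rw [ht]; exact hzy⟩

/-- Packing dimension at most `s`: for every `s' > s` the set is covered by countably many sets of
upper box dimension at most `s'`. -/
def PackLE {n : ℕ} (s : ℝ) (Z : Set (E n)) : Prop :=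
  ∀ s' : ℝ, s < s' → ∃ W : ℕ → Set (E n), Z ⊆ ⋃ j, W j ∧
    ∀ j, ∃ C : ℝ, ∀ δ : ℝ, 0 < δ → δ ≤ 1 → ∃ P : Finset (E n),
      (P.card : ℝ) ≤ C * δ ^ (-s') ∧ ∀ z ∈ W j, ∃ y ∈ P, ‖z - y‖ ≤ δ

theorem dim_pack {n : ℕ} (hn : 2 ≤ n) {d : ℕ} (hd : 1 ≤ d) {s : ℝ} (hs : 0 ≤ s)
    {Z : Set (E (n + 1))} (hZ : PackLE s Z)
    (x₀ : ℕ → E (n + 1)) (D : ℕ → Submodule ℝ (E (n + 1)))
    (hD : ∀ i, Module.finrank ℝ (D i) ≤ d) (hZD : ∀ z ∈ Z, ∃ i, z - x₀ i ∈ D i)
    {S : Set (sphere (0 : E (n + 1)) 1)}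
    (hS : (volume : Measure (E (n + 1))).toSphere S ≠ 0) {K : Set (E (n + 1))}
    (hK : ∀ e ∈ S, ∃ z ∈ Z, volume {t : ℝ | z + t • (e : E (n + 1)) ∈ K} ≠ 0) :
    ENNReal.ofReal ((n:ℝ) + 1 - s * (1 - 1 / (d:ℝ))) ≤ dimH K := by
  have hd0 : (0:ℝ) < d := by exact_mod_cast hd
  have hd1 : (1:ℝ) ≤ d := by exact_mod_cast hd
  have hα : 0 ≤ 1 - 1 / (d:ℝ) := by
    rw [sub_nonneg, div_le_one hd0]
    exact hd1
  have key : ∀ s' : ℝ, s < s' → ENNReal.ofReal ((n:ℝ) + 1 - s' * (1 - 1 / (d:ℝ))) ≤ dimH K := by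
    intro s' hs'
    obtain ⟨W, hW, hbox⟩ := hZ s' hs'
    have hs'0 : 0 ≤ s' := by linarith
    set Y : ℕ → Set (E (n + 1)) := fun k =>
      Z ∩ (W (Nat.unpair k).1 ∩ {z | z - x₀ (Nat.unpair k).2 ∈ D (Nat.unpair k).2}) with hY
    refine dim_near hn (κ := s' * (1 - 1 / (d:ℝ))) (by positivity) (Z := Y) ?_ hS ?_
    · intro k
      refine near_of_box hd (D (Nat.unpair k).2) (hD _) (x₀ (Nat.unpair k).2)
        (fun z hz => hz.2.2) hs'0 ?_
      obtain ⟨C, hC⟩ := hbox (Nat.unpair k).1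
      refine ⟨C, fun δ h0 h1 => ?_⟩
      obtain ⟨P, hP, hPW⟩ := hC δ h0 h1
      exact ⟨P, hP, fun z hz => hPW z hz.2.1⟩
    · intro e he
      obtain ⟨z, hz, hv⟩ := hK e he
      obtain ⟨j, hj⟩ := mem_iUnion.1 (hW hz)
      obtain ⟨i, hi⟩ := hZD z hz
      refine ⟨z, mem_iUnion.2 ⟨Nat.pair j i, hz, ?_, ?_⟩, hv⟩
      · rw [Nat.unpair_pair]; exact hj
      · rw [Nat.unpair_pair]; exact hi
  -- let s' tend to s
  have hlim : Tendsto (fun s' : ℝ => ENNReal.ofReal ((n:ℝ) + 1 - s' * (1 - 1 / (d:ℝ))))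
      (𝓝[>] s) (𝓝 (ENNReal.ofReal ((n:ℝ) + 1 - s * (1 - 1 / (d:ℝ))))) := by
    have hc : Continuous fun s' : ℝ => ENNReal.ofReal ((n:ℝ) + 1 - s' * (1 - 1 / (d:ℝ))) :=
      ENNReal.continuous_ofReal.comp (by fun_prop)
    exact (hc.tendsto s).mono_left nhdsWithin_le_nhds
  refine le_of_tendsto hlim ?_
  filter_upwards [self_mem_nhdsWithin] with s' hs'
  exact key s' hs'

theorem PackLE.iUnion {n : ℕ} {s : ℝ} {Z : ℕ → Set (E n)} (h : ∀ k, PackLE s (Z k)) :
    PackLE s (⋃ k, Z k) := by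
  intro s' hs'
  choose W hW hbox using fun k => h k s' hs'
  refine ⟨fun j => W (Nat.unpair j).1 (Nat.unpair j).2, ?_, fun j => hbox _ _⟩
  refine iUnion_subset fun k => (hW k).trans (iUnion_subset fun j x hx => ?_)
  refine mem_iUnion.2 ⟨Nat.pair k j, ?_⟩
  rw [Nat.unpair_pair]
  exact hx

theorem PackLE.mono {n : ℕ} {s : ℝ} {Z Y : Set (E n)} (h : PackLE s Z) (hY : Y ⊆ Z) :
    PackLE s Y := by
  intro s' hs'
  obtain ⟨W, hW, hbox⟩ := h s' hs'
  exact ⟨W, hY.trans hW, hbox⟩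

theorem finrank_perp {n : ℕ} {v : E (n + 1)} (hv : v ≠ 0) :
    Module.finrank ℝ ((ℝ ∙ v)ᗮ : Submodule ℝ (E (n + 1))) = n := by
  have : Fact (Module.finrank ℝ (E (n + 1)) = n + 1) := ⟨by simp [E]⟩
  exact Submodule.finrank_orthogonal_span_singleton hv

/-- Parallel hyperplane sections of a Kakeya set. -/
theorem dim_sections {n : ℕ} (hn : 2 ≤ n) {s : ℝ} (hs : 0 ≤ s) {v : E (n + 1)} (hv : v ≠ 0)
    {K : Set (E (n + 1))}
    (hQ : Dense {q : ℝ | PackLE s (K ∩ {x | inner ℝ v x = q})})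
    {S : Set (sphere (0 : E (n + 1)) 1)}
    (hS : (volume : Measure (E (n + 1))).toSphere S ≠ 0)
    (hK : ∀ e ∈ S, ∃ (a : E (n + 1)) (r : ℝ), 0 < r ∧
      ∀ t ∈ Icc (0:ℝ) r, a + t • (e : E (n + 1)) ∈ K) :
    ENNReal.ofReal ((n:ℝ) + 1 - s * (1 - 1 / (n:ℝ))) ≤ dimH K := by
  classical
  obtain ⟨T, hTs, hTc, hTd⟩ := hQ.exists_countable_dense_subset
  obtain ⟨f, hf⟩ := hTc.exists_eq_range hTd.nonempty
  have hvv : 0 < (inner ℝ v v : ℝ) := by
    rw [real_inner_self_eq_norm_sq]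
    have := norm_pos_iff.2 hv
    positivity
  set Z : ℕ → Set (E (n + 1)) := fun k => K ∩ {x | inner ℝ v x = f k} with hZ
  set x₀ : ℕ → E (n + 1) := fun k => (f k / inner ℝ v v : ℝ) • v with hx₀
  have hZP : PackLE s (⋃ k, Z k) := by
    refine PackLE.iUnion fun k => ?_
    have : f k ∈ T := by rw [hf]; exact mem_range_self k
    exact hTs this
  -- the directions parallel to the hyperplanes are negligible
  have hnull : (volume : Measure (E (n + 1))).toSphere
      {e : sphere (0 : E (n + 1)) 1 | inner ℝ v (e : E (n + 1)) = (0:ℝ)} = 0 := by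
    have hm : MeasurableSet {e : sphere (0 : E (n + 1)) 1 | inner ℝ v (e : E (n + 1)) = (0:ℝ)} := by
      apply measurableSet_eq_fun
      · fun_prop
      · exact measurable_const
    rw [Measure.toSphere_apply' _ hm]
    have h1 : volume ((ℝ ∙ v)ᗮ : Submodule ℝ (E (n + 1))).carrier = 0 := by
      apply Measure.addHaar_submodule
      intro htop
      have h2 := finrank_perp hv
      rw [htop, finrank_top] at h2
      simp at h2
    have h2 : Ioo (0:ℝ) 1 • ((↑) '' {e : sphere (0 : E (n + 1)) 1 |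
        inner ℝ v (e : E (n + 1)) = (0:ℝ)} : Set (E (n + 1))) ⊆
        ((ℝ ∙ v)ᗮ : Submodule ℝ (E (n + 1))).carrier := by
      rintro _ ⟨c, -, _, ⟨e, he, rfl⟩, rfl⟩
      have h3 : (e : E (n + 1)) ∈ ((ℝ ∙ v)ᗮ : Submodule ℝ (E (n + 1))) := by
        rw [Submodule.mem_orthogonal_singleton_iff_inner_right]
        exact he
      exact Submodule.smul_mem _ c h3
    rw [measure_mono_null h2 h1, mul_zero]
  set S' : Set (sphere (0 : E (n + 1)) 1) :=
    S \ {e : sphere (0 : E (n + 1)) 1 | inner ℝ v (e : E (n + 1)) = (0:ℝ)} with hS'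
  have hS'0 : (volume : Measure (E (n + 1))).toSphere S' ≠ 0 := by
    intro h0
    apply hS
    refine measure_mono_null (t := S' ∪ {e | inner ℝ v (e : E (n + 1)) = (0:ℝ)}) ?_
      (measure_union_null h0 hnull)
    intro e he
    by_cases h : inner ℝ v (e : E (n + 1)) = (0:ℝ)
    · exact Or.inr h
    · exact Or.inl ⟨he, h⟩
  refine dim_pack hn (d := n) (by omega) hs hZP x₀ (fun _ => ((ℝ ∙ v)ᗮ : Submodule ℝ (E (n + 1))))
    (fun _ => (finrank_perp hv).le) ?_ hS'0 ?_
  · intro z hz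
    obtain ⟨k, hk⟩ := mem_iUnion.1 hz
    refine ⟨k, ?_⟩
    rw [Submodule.mem_orthogonal_singleton_iff_inner_right]
    have h1 : inner ℝ v z = f k := hk.2
    rw [hx₀, inner_sub_right, inner_smul_right, h1]
    field_simp
    ring
  · intro e he
    obtain ⟨a, r, hr, haK⟩ := hK e he.1
    have hve : inner ℝ v (e : E (n + 1)) ≠ (0:ℝ) := he.2
    set c : ℝ := inner ℝ v (e : E (n + 1)) with hc
    set α : ℝ := inner ℝ v a with hα
    -- a height of `T` strictly between those of the end points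
    have hne : (Ioo (min α (α + r * c)) (max α (α + r * c))).Nonempty := by
      rw [nonempty_Ioo, min_lt_max]
      intro h
      have : r * c = 0 := by linarith
      rcases mul_eq_zero.1 this with h | h
      · exact hr.ne' h
      · exact hve h
    obtain ⟨q, hqT, hq1⟩ := hTd.exists_mem_open isOpen_Ioo hne
    rw [hf] at hqT
    obtain ⟨k, rfl⟩ := hqT
    set t₀ : ℝ := (f k - α) / c with ht₀
    have ht₀' : f k = α + t₀ * c := by
      rw [ht₀, div_mul_cancel₀ _ hve]; ring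
    have ht : 0 < t₀ ∧ t₀ < r := by
      rcases lt_or_gt_of_ne hve with hneg | hpos
      · have hlt : α + r * c < α := by nlinarith
        rw [min_eq_right hlt.le, max_eq_left hlt.le] at hq1
        have h1 := hq1.1
        have h2 := hq1.2
        rw [ht₀'] at h1 h2
        constructor
        · by_contra hcon
          push Not at hcon
          nlinarith
        · by_contra hcon
          push Not at hcon
          nlinarith
      · have hlt : α < α + r * c := by nlinarith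
        rw [min_eq_left hlt.le, max_eq_right hlt.le] at hq1
        have h1 := hq1.1
        have h2 := hq1.2
        rw [ht₀'] at h1 h2
        constructor
        · by_contra hcon
          push Not at hcon
          nlinarith
        · by_contra hcon
          push Not at hcon
          nlinarith
    refine ⟨a + t₀ • (e : E (n + 1)), mem_iUnion.2 ⟨k, haK t₀ ⟨ht.1.le, ht.2.le⟩, ?_⟩, ?_⟩
    · show inner ℝ v (a + t₀ • (e : E (n + 1))) = f k
      rw [inner_add_right, inner_smul_right, ← hα, ← hc, ht₀']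
    · have hsub : Icc (-t₀) (r - t₀) ⊆ {t : ℝ | a + t₀ • (e : E (n + 1)) + t • (e : E (n + 1)) ∈ K} := by
        intro t ht1
        have : a + t₀ • (e : E (n + 1)) + t • (e : E (n + 1)) = a + (t₀ + t) • (e : E (n + 1)) := by
          rw [add_smul]; abel
        rw [mem_ofPred_eq, this]
        exact haK _ ⟨by linarith [ht1.1], by linarith [ht1.2]⟩
      intro h0
      have h1 := measure_mono_null hsub h0
      rw [Real.volume_Icc] at h1
      have h2 : r - t₀ - -t₀ = r := by ring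
      rw [h2, ENNReal.ofReal_eq_zero] at h1
      linarith

end Pool.Agent.U527.Lc
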