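import Pool.Agent.U527.Lc.Walk
import Pool.Agent.W767.Kc.Curve

set_option autoImplicit false

/-!
Polygons through a sequence of points; their order in terms of the crossing number.
-/

open MeasureTheory Set Filter Topology

namespace Pool.Agent.U527.Lc

open Pool.Agent.W767.Kc (OrderLE)

variable {n : ℕ}

/-- Truncation to `[0,1]`. -/
noncomputable def clamp (u : ℝ) : ℝ := max 0 (min u 1)

theorem clamp_of_le {u : ℝ} (h : u ≤ 0) : clamp u = 0 := by
  unfold clamp
  exact max_eq_left ((min_le_left _ _).trans h)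

theorem clamp_of_ge {u : ℝ} (h : 1 ≤ u) : clamp u = 1 := by
  unfold clamp
  rw [min_eq_right h]
  norm_num

theorem clamp_of_mem {u : ℝ} (h0 : 0 ≤ u) (h1 : u ≤ 1) : clamp u = u := by
  unfold clamp
  rw [min_eq_left h1, max_eq_right h0]

theorem continuous_clamp : Continuous clamp := by
  unfold clamp
  fun_prop

/-- The polygon through the points `x 0, …, x M`. -/
noncomputable def pg (x : ℕ → EuclideanSpace ℝ (Fin n)) (M : ℕ) (t : ℝ) :
    EuclideanSpace ℝ (Fin n) :=
  x 0 + ∑ k ∈ Finset.range M, clamp (t - k) • (x (k + 1) - x k)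

theorem continuous_pg (x : ℕ → EuclideanSpace ℝ (Fin n)) (M : ℕ) : Continuous (pg x M) := by
  unfold pg
  apply continuous_const.add
  apply continuous_finsetSum
  intro k _
  exact (continuous_clamp.comp (by fun_prop)).smul continuous_const

theorem pg_between (x : ℕ → EuclideanSpace ℝ (Fin n)) {M k : ℕ} (hk : k < M) {t : ℝ}
    (h0 : (k:ℝ) ≤ t) (h1 : t ≤ k + 1) : pg x M t = x k + (t - k) • (x (k + 1) - x k) := by
  have hsplit : ∑ j ∈ Finset.range M, clamp (t - j) • (x (j + 1) - x j) =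
      ∑ j ∈ Finset.range (k + 1), clamp (t - j) • (x (j + 1) - x j) := by
    symm
    apply Finset.sum_subset
    · intro j hj
      rw [Finset.mem_range] at hj ⊢
      omega
    · intro j _ hj
      rw [Finset.mem_range, not_lt] at hj
      have : ((k + 1 : ℕ) : ℝ) ≤ j := by exact_mod_cast hj
      push_cast at this
      rw [clamp_of_le (by linarith), zero_smul]
  unfold pg
  rw [hsplit, Finset.sum_range_succ, clamp_of_mem (by linarith) (by linarith)]
  have h2 : ∑ j ∈ Finset.range k, clamp (t - j) • (x (j + 1) - x j) = x k - x 0 := by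
    rw [← Finset.sum_range_sub]
    apply Finset.sum_congr rfl
    intro j hj
    rw [Finset.mem_range] at hj
    have : ((j + 1 : ℕ) : ℝ) ≤ k := by exact_mod_cast hj
    push_cast at this
    rw [clamp_of_ge (by linarith), one_smul]
  rw [h2]
  abel

theorem pg_left (x : ℕ → EuclideanSpace ℝ (Fin n)) (M : ℕ) {t : ℝ} (h : t ≤ 0) :
    pg x M t = x 0 := by
  unfold pg
  rw [Finset.sum_eq_zero, add_zero]
  intro j _
  have : (0:ℝ) ≤ j := by positivity
  rw [clamp_of_le (by linarith), zero_smul]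

theorem pg_right (x : ℕ → EuclideanSpace ℝ (Fin n)) (M : ℕ) {t : ℝ} (h : (M:ℝ) ≤ t) :
    pg x M t = x M := by
  unfold pg
  have h2 : ∑ j ∈ Finset.range M, clamp (t - j) • (x (j + 1) - x j) = x M - x 0 := by
    rw [← Finset.sum_range_sub]
    apply Finset.sum_congr rfl
    intro j hj
    rw [Finset.mem_range] at hj
    have : ((j + 1 : ℕ) : ℝ) ≤ M := by exact_mod_cast hj
    push_cast at this
    rw [clamp_of_ge (by linarith), one_smul]
  rw [h2]
  abel

theorem pg_nat (x : ℕ → EuclideanSpace ℝ (Fin n)) {M k : ℕ} (hk : k ≤ M) :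
    pg x M k = x k := by
  rcases hk.lt_or_eq with h | h
  · rw [pg_between x h le_rfl (by linarith), sub_self, zero_smul, add_zero]
  · rw [h]
    exact pg_right x M le_rfl

open Classical in
/-- The order of a polygon. -/
theorem orderLE_pg (x : ℕ → EuclideanSpace ℝ (Fin n)) (M N : ℕ)
    (hN : ∀ (ν : EuclideanSpace ℝ (Fin n)) (c : ℝ), (∀ k ≤ M, inner ℝ (x k) ν ≠ c) →
      ((Finset.range M).filter (fun k => Sep (ν, c) (x k) (x (k + 1)))).card ≤ N) :
    OrderLE N (pg x M) := by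
  intro ν _
  have hfin : ({c : ℝ | ∃ k ≤ M, inner ℝ (x k) ν = c} : Set ℝ).Finite := by
    have : {c : ℝ | ∃ k ≤ M, inner ℝ (x k) ν = c} =
        (fun k => (inner ℝ (x k) ν : ℝ)) '' {k | k ≤ M} := by
      ext c
      simp only [mem_ofPred_eq, mem_image]
    rw [this]
    exact (Set.finite_le_nat M).image _
  filter_upwards [hfin.countable.ae_notMem volume] with c hc
  have hc' : ∀ k ≤ M, inner ℝ (x k) ν ≠ c := fun k hk h => hc ⟨k, hk, h⟩
  refine le_trans ?_ (show ((((Finset.range M).filter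
    (fun k => Sep (ν, c) (x k) (x (k + 1)))).card : ℕ∞)) ≤ (N : ℕ∞) from by
      exact_mod_cast hN ν c hc')
  rw [← Set.encard_coe_eq_coe_finsetCard]
  -- the parameters are inside the edges
  have key : ∀ u : ℝ, inner ℝ ν (pg x M u) = c → 0 < u ∧ u < M := by
    intro u hu
    constructor
    · by_contra h
      rw [pg_left x M (not_lt.1 h), real_inner_comm] at hu
      exact hc' 0 (Nat.zero_le _) hu
    · by_contra h
      rw [pg_right x M (not_lt.1 h), real_inner_comm] at hu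
      exact hc' M le_rfl hu
  have hval : ∀ u : ℝ, inner ℝ ν (pg x M u) = c → ⌊u⌋₊ < M ∧
      inner ℝ (x ⌊u⌋₊) ν + (u - ⌊u⌋₊) * (inner ℝ (x (⌊u⌋₊ + 1)) ν - inner ℝ (x ⌊u⌋₊) ν) = c ∧
      (⌊u⌋₊ : ℝ) ≤ u ∧ u < ⌊u⌋₊ + 1 := by
    intro u hu
    obtain ⟨h1, h2⟩ := key u hu
    have h3 := Nat.floor_le h1.le
    have h4 := Nat.lt_floor_add_one u
    have h5 : ⌊u⌋₊ < M := by
      have : (⌊u⌋₊ : ℝ) < M := lt_of_le_of_lt h3 h2
      exact_mod_cast this
    refine ⟨h5, ?_, h3, h4⟩
    rw [pg_between x h5 h3 h4.le, inner_add_right, inner_smul_right, inner_sub_right] at hu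
    rw [real_inner_comm ν (x ⌊u⌋₊), real_inner_comm ν (x (⌊u⌋₊ + 1))]
    exact hu
  apply Set.encard_le_encard_of_injOn (f := fun u : ℝ => ⌊u⌋₊)
  · intro u hu
    obtain ⟨h1, h2, h3, h4⟩ := hval u hu
    simp only [Finset.coe_filter, Finset.mem_range, mem_ofPred_eq]
    refine ⟨h1, ?_⟩
    have hne0 := hc' _ h1.le
    have hne1 := hc' _ (Nat.succ_le_of_lt h1)
    set a : ℝ := inner ℝ (x ⌊u⌋₊) ν with ha
    set b : ℝ := inner ℝ (x (⌊u⌋₊ + 1)) ν with hb
    unfold Sep side
    simp only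
    rw [← ha, ← hb]
    intro hiff
    set s : ℝ := u - ⌊u⌋₊ with hs
    have hs0 : 0 ≤ s := by rw [hs]; linarith
    have hs1 : s < 1 := by rw [hs]; linarith
    rcases lt_or_gt_of_ne hne0 with hlt | hgt
    · have : ¬ c < b := fun h => absurd (hiff.2 h) (not_lt.2 hlt.le)
      have hb1 : b < c := lt_of_le_of_ne (not_lt.1 this) hne1
      nlinarith
    · have hb1 : c < b := hiff.1 hgt
      nlinarith
  · intro u hu v hv huv
    obtain ⟨h1, h2, h3, h4⟩ := hval u hu
    obtain ⟨h1', h2', h3', h4'⟩ := hval v hv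
    simp only at huv
    rw [← huv] at h2' h3' h4'
    have hne0 := hc' _ h1.le
    set a : ℝ := inner ℝ (x ⌊u⌋₊) ν with ha
    set b : ℝ := inner ℝ (x (⌊u⌋₊ + 1)) ν with hb
    have h6 : (u - v) * (b - a) = 0 := by linarith
    rcases mul_eq_zero.1 h6 with h7 | h7
    · linarith
    · exfalso
      rw [h7, mul_zero, add_zero] at h2
      exact hne0 h2

open Classical in
theorem cr_eq_card (h : EuclideanSpace ℝ (Fin n) × ℝ) (L : List (EuclideanSpace ℝ (Fin n))) :
    ((Finset.range (L.length - 1)).filter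
      (fun k => Sep h (L.getD k 0) (L.getD (k + 1) 0))).card = cr h L := by
  induction L with
  | nil => simp [cr]
  | cons x L ih =>
    cases L with
    | nil => simp [cr]
    | cons y L =>
      rw [cr_cons_cons, ← ih]
      rw [Finset.card_filter, Finset.card_filter]
      have e1 : (x :: y :: L).length - 1 = ((y :: L).length - 1) + 1 := by simp
      rw [e1, Finset.sum_range_succ']
      simp only [List.getD_cons_succ, List.getD_cons_zero, zero_add]
      rw [add_comm]

open Classical in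
/-- A walk gives a closed polygon. -/
theorem exists_curve (P : Finset (EuclideanSpace ℝ (Fin n))) (hP : P.Nonempty) (N : ℕ)
    (L : List (EuclideanSpace ℝ (Fin n))) (hL : ∀ x, x ∈ L ↔ x ∈ P)
    (hcr : ∀ h, Generic P h → cr h L ≤ N) :
    ∃ γ : ℝ → EuclideanSpace ℝ (Fin n), Continuous γ ∧ OrderLE N γ ∧ ∀ x ∈ P, ∃ t, γ t = x := by
  set M := L.length - 1 with hM
  set x : ℕ → EuclideanSpace ℝ (Fin n) := fun k => L.getD k 0 with hx
  have hLpos : 0 < L.length := by
    obtain ⟨p, hp⟩ := hP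
    exact List.length_pos_of_mem ((hL p).2 hp)
  refine ⟨pg x M, continuous_pg x M, orderLE_pg x M N ?_, ?_⟩
  · intro ν c hc
    have h1 : Generic P (ν, c) := by
      intro p hp
      obtain ⟨i, hi, rfl⟩ := List.mem_iff_getElem.1 ((hL p).2 hp)
      have h2 := hc i (by omega)
      simp only [hx] at h2
      rwa [List.getD_eq_getElem _ _ hi] at h2
    rw [hM]
    have h2 := cr_eq_card (ν, c) L
    simp only [hx]
    rw [h2]
    exact hcr _ h1
  · intro p hp
    obtain ⟨i, hi, rfl⟩ := List.mem_iff_getElem.1 ((hL p).2 hp)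
    refine ⟨i, ?_⟩
    rw [pg_nat x (by omega : i ≤ M)]
    simp only [hx]
    rw [List.getD_eq_getElem _ _ hi]

/-- **Curves of low order through a finite set.** -/
theorem curve_through {d : ℕ} (hd : 1 ≤ d) (D : Submodule ℝ (EuclideanSpace ℝ (Fin n)))
    (hD : Module.finrank ℝ D ≤ d) (x₀ : EuclideanSpace ℝ (Fin n))
    (P : Finset (EuclideanSpace ℝ (Fin n))) (hP : P.Nonempty) (hPD : ∀ x ∈ P, x - x₀ ∈ D) :
    ∃ (N : ℕ) (γ : ℝ → EuclideanSpace ℝ (Fin n)), Continuous γ ∧ OrderLE N γ ∧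
      (∀ x ∈ P, ∃ t, γ t = x) ∧
      (N : ℝ) ≤ 4 * ((n:ℝ) + 7) * ((P.card : ℝ) ^ (1 - 1 / (d:ℝ)) *
        (1 + Real.log P.card) ^ 2) := by
  obtain ⟨L, hL, hcr⟩ := walk hd D hD x₀ P hP hPD
  set B : ℝ := 4 * ((n:ℝ) + 7) * ((P.card : ℝ) ^ (1 - 1 / (d:ℝ)) *
        (1 + Real.log P.card) ^ 2) with hB
  have hB0 : 0 ≤ B := by
    have := hcr (0, 1) (fun x _ => by simp)
    exact le_trans (Nat.cast_nonneg _) this
  obtain ⟨γ, h1, h2, h3⟩ := exists_curve P hP ⌊B⌋₊ L hL
    (fun h hh => Nat.le_floor (hcr h hh))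
  exact ⟨⌊B⌋₊, γ, h1, h2, h3, Nat.floor_le hB0⟩

end Pool.Agent.U527.Lc
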