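import Pool.Agent.U527.Lc.Polygon
import Pool.Agent.U527.Crv.Fin

set_option autoImplicit false

/-!
The tube inequality for tubes with `N` positions.
-/

open MeasureTheory Set Filter Topology ENNReal NNReal Metric

namespace Pool.Agent.U527.Lc

/-- Curves on `[0,1]` of low order through a finite set. -/
theorem curve_through' {d : ℕ} (hd : 1 ≤ d) (P : Finset (EuclideanSpace ℝ (Fin d)))
    (hP : P.Nonempty) :
    ∃ (M : ℕ) (γ : ℝ → EuclideanSpace ℝ (Fin d)), Continuous γ ∧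
      (∀ η : EuclideanSpace ℝ (Fin d), ∀ᵐ c : ℝ,
        {s | s ∈ Icc (0:ℝ) 1 ∧ inner ℝ (γ s) η = c}.encard ≤ M) ∧
      (∀ x ∈ P, ∃ t ∈ Icc (0:ℝ) 1, γ t = x) ∧
      (M : ℝ) ≤ 4 * ((d:ℝ) + 7) * ((P.card : ℝ) ^ (1 - 1 / (d:ℝ)) *
        (1 + Real.log P.card) ^ 2) := by
  classical
  obtain ⟨M, γ, hγ, hord, hthru, hM⟩ := curve_through hd (⊤ : Submodule ℝ _)
    (by rw [finrank_top, finrank_euclideanSpace_fin]) 0 P hP (fun x _ => Submodule.mem_top)
  choose t ht using fun x : P => hthru x x.2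
  -- a bounded interval of parameters
  obtain ⟨T, hT0, hT⟩ : ∃ T : ℝ, 0 < T ∧ ∀ x : P, |t x| ≤ T := by
    refine ⟨1 + ∑ x : P, |t x|, by positivity, fun x => ?_⟩
    have := Finset.single_le_sum (f := fun x : P => |t x|) (fun _ _ => abs_nonneg _)
      (Finset.mem_univ x)
    linarith
  refine ⟨M, fun s => γ ((2 * s - 1) * T), hγ.comp (by fun_prop), ?_, ?_, hM⟩
  · intro η
    by_cases hη : η = 0
    · have h1 : ∀ᵐ c : ℝ, c ≠ 0 := by
        rw [ae_iff]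
        simp
      filter_upwards [h1] with c hc
      have : {s : ℝ | s ∈ Icc (0:ℝ) 1 ∧ inner ℝ (γ ((2 * s - 1) * T)) η = c} = ∅ := by
        ext s
        simp only [hη, inner_zero_right, mem_ofPred_eq, mem_empty_iff_false, iff_false, not_and]
        exact fun _ h => hc h.symm
      rw [this]
      simp
    · filter_upwards [hord η hη] with c hc
      refine le_trans ?_ hc
      apply Set.encard_le_encard_of_injOn (f := fun s : ℝ => (2 * s - 1) * T)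
      · rintro s ⟨-, hs⟩
        simp only [mem_ofPred_eq]
        rw [real_inner_comm]
        exact hs
      · intro s _ s' _ h
        simp only at h
        have := mul_right_cancel₀ hT0.ne' h
        linarith
  · intro x hx
    refine ⟨(t ⟨x, hx⟩ / T + 1) / 2, ?_, ?_⟩
    · have h1 := abs_le.1 (hT ⟨x, hx⟩)
      have h2 : -1 ≤ t ⟨x, hx⟩ / T := by rw [le_div_iff₀ hT0]; linarith [h1.1]
      have h3 : t ⟨x, hx⟩ / T ≤ 1 := by rw [div_le_one hT0]; exact h1.2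
      constructor <;> linarith
    · have h1 : (2 * ((t ⟨x, hx⟩ / T + 1) / 2) - 1) * T = t ⟨x, hx⟩ := by
        field_simp
        ring
      simp only [h1]
      exact ht ⟨x, hx⟩

open Pool.Agent.U527.Crv Pool.Agent.H810R3.Tub in
/-- The tube inequality for tubes with `N` positions. -/
theorem tubes_few (d : ℕ) (hd : 2 ≤ d) (q : ℝ) (hq : ((d : ℝ) + 1) / d < q) (K S : ℝ≥0) :
    ∃ C : ℝ, 0 < C ∧ ∀ (N : ℕ) (P : Finset (EuclideanSpace ℝ (Fin d))), 1 ≤ N → P.card ≤ N →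
      ∀ δ : ℝ, 0 < δ → δ < 1 → ∀ (ι : Type) [Fintype ι] (v β : ι → EuclideanSpace ℝ (Fin d))
        (s : ι → ℝ),
        (∀ i, ‖v i‖ ≤ 1) → (∀ i, |s i| ≤ S) →
        (∀ i, ∃ x ∈ P, ‖β i - x‖ ≤ K * δ) → (∀ i j, i ≠ j → δ ≤ ‖dir (v i) - dir (v j)‖) →
        eLpNorm (fun y : Space d => ∑ i,
            (tube δ (dir (v i)) (WithLp.toLp 2 (β i + s i • v i, s i))).indicator (fun _ => (1 : ℝ)) y)
            (ENNReal.ofReal q) volume
          ≤ ENNReal.ofReal (C * ((N:ℝ) ^ (1 - 1 / (d:ℝ)) * (1 + Real.log N) ^ 2) ^ (1 - 1 / q) *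
              δ ^ ((d : ℝ) / q) * (Fintype.card ι : ℝ) ^ (1 - 1 / (q * d))) := by
  classical
  obtain ⟨C, hC, h⟩ := Pool.Agent.U527.Crv.tubes d hd q hq K S
  set b : ℝ := 5 * ((d:ℝ) + 7) with hb
  have hb0 : 0 < b := by positivity
  refine ⟨C * b ^ (1 - 1 / q), by positivity, ?_⟩
  intro N P hN hPN δ hδ hδ1 ι _ v β s hv hs hβ hsep
  rcases isEmpty_or_nonempty ι with hι | hι
  · have : (fun y : Space d => ∑ i,
            (tube δ (dir (v i)) (WithLp.toLp 2 (β i + s i • v i, s i))).indicator (fun _ => (1 : ℝ)) y) =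
          fun _ => 0 := by
      funext y
      simp
    rw [this, eLpNorm_zero']
    exact zero_le
  have hP : P.Nonempty := by
    obtain ⟨x, hx, -⟩ := hβ hι.some
    exact ⟨x, hx⟩
  obtain ⟨M, γ, hγ, hord, hthru, hM⟩ := curve_through' (by omega : 1 ≤ d) P hP
  have hτ : ∀ i, ∃ t ∈ Icc (0:ℝ) 1, ‖β i - γ t‖ ≤ K * δ := by
    intro i
    obtain ⟨x, hx, hxβ⟩ := hβ i
    obtain ⟨t, ht, rfl⟩ := hthru x hx
    exact ⟨t, ht, hxβ⟩
  choose τ hτ1 hτ2 using hτ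
  refine (h M γ hγ.continuousOn hord δ hδ hδ1 ι v β s τ hv hs hτ1 hτ2 hsep).trans ?_
  apply ENNReal.ofReal_le_ofReal
  have hd0 : (0:ℝ) < d := by
    have : 0 < d := by omega
    exact_mod_cast this
  have hd1 : (1:ℝ) ≤ d := by
    have : 1 ≤ d := by omega
    exact_mod_cast this
  have hq1 : 1 < q := by
    refine lt_trans ?_ hq
    rw [lt_div_iff₀ hd0]
    linarith
  have hθ : 0 ≤ 1 - 1 / q := by
    rw [sub_nonneg, div_le_one (by linarith)]
    exact hq1.le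
  have hα : 0 ≤ 1 - 1 / (d:ℝ) := by
    rw [sub_nonneg, div_le_one hd0]
    exact hd1
  have hNr : (1:ℝ) ≤ N := by exact_mod_cast hN
  have hPc : (1:ℝ) ≤ P.card := by exact_mod_cast hP.card_pos
  have hPcN : (P.card : ℝ) ≤ N := by exact_mod_cast hPN
  set Y : ℝ := (N:ℝ) ^ (1 - 1 / (d:ℝ)) * (1 + Real.log N) ^ 2 with hY
  have hlogN : 0 ≤ Real.log N := Real.log_nonneg hNr
  have hNα : 1 ≤ (N:ℝ) ^ (1 - 1 / (d:ℝ)) := Real.one_le_rpow hNr hα
  have hM2 : (M:ℝ) ≤ 4 * ((d:ℝ) + 7) * Y := by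
    refine hM.trans ?_
    rw [hY]
    have h1 : (P.card : ℝ) ^ (1 - 1 / (d:ℝ)) ≤ (N:ℝ) ^ (1 - 1 / (d:ℝ)) :=
      Real.rpow_le_rpow (by linarith) hPcN hα
    have h2 : Real.log P.card ≤ Real.log N := Real.log_le_log (by linarith) hPcN
    have h3 : 0 ≤ Real.log P.card := Real.log_nonneg hPc
    gcongr
  have hY1 : 1 ≤ Y := by
    rw [hY]
    have : 1 ≤ (1 + Real.log N) ^ 2 := one_le_pow₀ (by linarith)
    nlinarith
  have hM3 : 1 + (M:ℝ) ≤ b * Y := by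
    rw [hb]
    nlinarith
  have hM4 : (1 + (M:ℝ)) ^ (1 - 1 / q) ≤ b ^ (1 - 1 / q) * Y ^ (1 - 1 / q) := by
    rw [← Real.mul_rpow hb0.le (by linarith)]
    exact Real.rpow_le_rpow (by positivity) hM3 hθ
  calc C * (1 + (M:ℝ)) ^ (1 - 1 / q) * δ ^ ((d : ℝ) / q) * (Fintype.card ι : ℝ) ^ (1 - 1 / (q * d))
      ≤ C * (b ^ (1 - 1 / q) * Y ^ (1 - 1 / q)) * δ ^ ((d : ℝ) / q) *
        (Fintype.card ι : ℝ) ^ (1 - 1 / (q * d)) := by
        gcongr
    _ = _ := by ring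

end Pool.Agent.U527.Lc
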