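import Mathlib

set_option autoImplicit false

/-!
Numbers of sign patterns of points with respect to hyperplanes, from the Sauer–Shelah lemma.
-/

open Finset

namespace Pool.Agent.U527.Lc

theorem sum_choose_le (m d : ℕ) : ∑ k ∈ range (d + 1), m.choose k ≤ (m + 1) ^ d := by
  induction d with
  | zero => simp
  | succ d ih =>
    have h1 : ∀ k, m.choose (k + 1) ≤ m * m.choose k := by
      intro k
      have h := Nat.choose_succ_right_eq m k
      calc m.choose (k + 1) ≤ m.choose (k + 1) * (k + 1) := Nat.le_mul_of_pos_right _ (by omega)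
        _ = m.choose k * (m - k) := h
        _ ≤ m.choose k * m := Nat.mul_le_mul_left _ (Nat.sub_le _ _)
        _ = _ := mul_comm _ _
    rw [sum_range_succ']
    calc ∑ k ∈ range (d + 1), m.choose (k + 1) + m.choose 0
        ≤ ∑ k ∈ range (d + 1), m * m.choose k + (m + 1) ^ d := by
          apply add_le_add
          · exact sum_le_sum (fun k _ => h1 k)
          · rw [Nat.choose_zero_right]
            exact Nat.one_le_pow _ _ (by omega)
      _ = m * ∑ k ∈ range (d + 1), m.choose k + (m + 1) ^ d := by rw [mul_sum]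
      _ ≤ m * (m + 1) ^ d + (m + 1) ^ d := by gcongr
      _ = _ := by ring

/-- Sauer–Shelah: a family of subsets of `P` which shatters no set with more than `m` elements. -/
theorem card_family_le {α : Type*} [DecidableEq α] (𝒜 : Finset (Finset α)) (P : Finset α) (m : ℕ)
    (hP : ∀ A ∈ 𝒜, A ⊆ P) (hm : ∀ B : Finset α, 𝒜.Shatters B → B.card ≤ m) :
    𝒜.card ≤ (P.card + 1) ^ m := by
  refine (card_le_card_shatterer 𝒜).trans ?_
  refine le_trans ?_ (sum_choose_le P.card m)
  have hsub : 𝒜.shatterer ⊆ (range (m + 1)).biUnion (fun k => P.powersetCard k) := by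
    intro B hB
    rw [mem_shatterer] at hB
    obtain ⟨A, hA, hBA⟩ := hB.exists_superset
    simp only [mem_biUnion, mem_range, mem_powersetCard]
    exact ⟨B.card, Nat.lt_succ_of_le (hm B hB), hBA.trans (hP A hA), rfl⟩
  refine (card_le_card hsub).trans ?_
  refine card_biUnion_le.trans ?_
  apply sum_le_sum
  intro k _
  rw [card_powersetCard]

variable {n : ℕ}

/-- The side of the point `x` with respect to the hyperplane `⟪x, η⟫ = c`. -/
def side (h : EuclideanSpace ℝ (Fin n) × ℝ) (x : EuclideanSpace ℝ (Fin n)) : Prop :=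
  h.2 < inner ℝ x h.1

/-- The hyperplane meets none of the points of `P`. -/
def Generic (P : Finset (EuclideanSpace ℝ (Fin n))) (h : EuclideanSpace ℝ (Fin n) × ℝ) : Prop :=
  ∀ x ∈ P, inner ℝ x h.1 ≠ h.2

open Classical in
/-- The points of `P` on the positive side. -/
noncomputable def pos (P : Finset (EuclideanSpace ℝ (Fin n))) (h : EuclideanSpace ℝ (Fin n) × ℝ) :
    Finset (EuclideanSpace ℝ (Fin n)) := P.filter (fun x => side h x)

theorem mem_pos {P : Finset (EuclideanSpace ℝ (Fin n))} {h : EuclideanSpace ℝ (Fin n) × ℝ}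
    {x : EuclideanSpace ℝ (Fin n)} : x ∈ pos P h ↔ x ∈ P ∧ side h x := by
  classical
  unfold pos
  rw [mem_filter]

open Classical in
/-- The possible sets of points on the positive side of a generic hyperplane. -/
noncomputable def cuts (P : Finset (EuclideanSpace ℝ (Fin n))) :
    Finset (Finset (EuclideanSpace ℝ (Fin n))) :=
  P.powerset.filter (fun A => ∃ h, Generic P h ∧ pos P h = A)

theorem mem_cuts {P A : Finset (EuclideanSpace ℝ (Fin n))} :
    A ∈ cuts P ↔ ∃ h, Generic P h ∧ pos P h = A := by
  classical
  unfold cuts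
  rw [mem_filter, mem_powerset]
  constructor
  · exact fun h => h.2
  · rintro ⟨h, h1, rfl⟩
    exact ⟨fun x hx => (mem_pos.1 hx).1, h, h1, rfl⟩

/-- There are at most polynomially many cuts. -/
theorem card_cuts (P : Finset (EuclideanSpace ℝ (Fin n))) :
    (cuts P).card ≤ (P.card + 1) ^ (n + 1) := by
  classical
  apply card_family_le (cuts P) P (n + 1)
  · intro A hA
    obtain ⟨h, -, rfl⟩ := mem_cuts.1 hA
    exact fun x hx => (mem_pos.1 hx).1
  · intro B hB
    by_contra hcon
    push Not at hcon
    -- an affine dependence of the points of `B`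
    have hdep : ¬ LinearIndependent ℝ (fun x : B =>
        ((x : EuclideanSpace ℝ (Fin n)), (1 : ℝ))) := by
      intro hli
      have h1 := hli.fintype_card_le_finrank
      rw [Fintype.card_coe, Module.finrank_prod, finrank_euclideanSpace_fin,
        Module.finrank_self] at h1
      omega
    rw [Fintype.not_linearIndependent_iff] at hdep
    obtain ⟨g, hg, i, hi⟩ := hdep
    have hg1 : ∑ x : B, g x • (x : EuclideanSpace ℝ (Fin n)) = 0 := by
      have := congrArg Prod.fst hg
      simpa [Prod.fst_sum] using this
    have hg2 : ∑ x : B, g x = 0 := by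
      have := congrArg Prod.snd hg
      simpa [Prod.snd_sum] using this
    -- the pattern
    obtain ⟨A, hA, hAB⟩ := hB (t := B.attach.filter (fun x => 0 < g x) |>.image Subtype.val) (by
      intro x hx
      simp only [mem_image, mem_filter, mem_attach, true_and] at hx
      obtain ⟨y, -, rfl⟩ := hx
      exact y.2)
    obtain ⟨h, hgen, rfl⟩ := mem_cuts.1 hA
    have hBP : B ⊆ P := by
      obtain ⟨A', hA', hBA'⟩ := hB.exists_superset
      obtain ⟨h', -, rfl⟩ := mem_cuts.1 hA'
      exact fun x hx => (mem_pos.1 (hBA' hx)).1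
    have hside : ∀ x : B, side h x ↔ 0 < g x := by
      intro x
      have h1 : (x : EuclideanSpace ℝ (Fin n)) ∈ B ∩ pos P h ↔
          (x : EuclideanSpace ℝ (Fin n)) ∈ (B.attach.filter (fun x => 0 < g x)).image Subtype.val := by
        rw [hAB]
      simp only [mem_inter, x.2, true_and, mem_pos, hBP x.2, mem_image, mem_filter, mem_attach,
        Subtype.exists] at h1
      rw [h1]
      constructor
      · rintro ⟨a, b, hab, rfl⟩
        exact hab
      · intro hx
        exact ⟨x, x.2, hx, rfl⟩
    have hterm : ∀ x : B, 0 ≤ g x * (inner ℝ (x : EuclideanSpace ℝ (Fin n)) h.1 - h.2) ∧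
        (g x ≠ 0 → 0 < g x * (inner ℝ (x : EuclideanSpace ℝ (Fin n)) h.1 - h.2)) := by
      intro x
      have hne := hgen x (hBP x.2)
      rcases lt_trichotomy (g x) 0 with hx | hx | hx
      · have h1 : ¬ side h x := fun h' => absurd ((hside x).1 h') (not_lt.2 hx.le)
        unfold side at h1
        have h2 : inner ℝ (x : EuclideanSpace ℝ (Fin n)) h.1 < h.2 :=
          lt_of_le_of_ne (not_lt.1 h1) hne
        have := mul_pos_of_neg_of_neg hx (sub_neg.2 h2)
        exact ⟨this.le, fun _ => this⟩
      · rw [hx]; simp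
      · have h1 : side h x := (hside x).2 hx
        unfold side at h1
        have := mul_pos hx (sub_pos.2 h1)
        exact ⟨this.le, fun _ => this⟩
    have hsum : 0 < ∑ x : B, g x * (inner ℝ (x : EuclideanSpace ℝ (Fin n)) h.1 - h.2) :=
      sum_pos' (fun x _ => (hterm x).1) ⟨i, mem_univ _, (hterm i).2 hi⟩
    have hzero : ∑ x : B, g x * (inner ℝ (x : EuclideanSpace ℝ (Fin n)) h.1 - h.2) = 0 := by
      simp only [mul_sub, sum_sub_distrib]
      rw [← sum_mul, hg2, zero_mul, sub_zero]
      have : ∑ x : B, g x * inner ℝ (x : EuclideanSpace ℝ (Fin n)) h.1 =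
          inner ℝ (∑ x : B, g x • (x : EuclideanSpace ℝ (Fin n))) h.1 := by
        rw [sum_inner]
        apply sum_congr rfl
        intro x _
        rw [real_inner_smul_left]
      rw [this, hg1, inner_zero_left]
    linarith

/-- Points of a `d`-dimensional affine space which are pairwise separated by `r` hyperplanes. -/
theorem card_of_separated {P : Finset (EuclideanSpace ℝ (Fin n))} {d r : ℕ}
    (D : Submodule ℝ (EuclideanSpace ℝ (Fin n))) (hD : Module.finrank ℝ D ≤ d)
    (x₀ : EuclideanSpace ℝ (Fin n)) (hP : ∀ x ∈ P, x - x₀ ∈ D)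
    (l : Fin r → EuclideanSpace ℝ (Fin n) × ℝ) (hl : ∀ i, Generic P (l i))
    (hsep : ∀ x ∈ P, ∀ y ∈ P, (∀ i, side (l i) x ↔ side (l i) y) → x = y) :
    P.card ≤ (r + 1) ^ d := by
  classical
  set f : EuclideanSpace ℝ (Fin n) → Finset (Fin r) := fun x =>
    univ.filter (fun i => side (l i) x) with hf
  have hinj : Set.InjOn f P := by
    intro x hx y hy hxy
    apply hsep x hx y hy
    intro i
    have h1 : i ∈ f x ↔ i ∈ f y := by rw [hxy]
    simpa [hf] using h1
  have hc : P.card = (P.image f).card := (card_image_of_injOn hinj).symm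
  rw [hc]
  have := card_family_le (P.image f) (univ : Finset (Fin r)) d (fun A _ => subset_univ A) ?_
  · simpa using this
  · intro B hB
    by_contra hcon
    push Not at hcon
    have hdep : ¬ LinearIndependent ℝ (fun i : B => D.orthogonalProjectionOnto (l i).1) := by
      intro hli
      have h1 := hli.fintype_card_le_finrank
      rw [Fintype.card_coe] at h1
      omega
    rw [Fintype.not_linearIndependent_iff] at hdep
    obtain ⟨g, hg, i₀, hi₀⟩ := hdep
    -- the combination is constant on the affine space
    have hconst : ∀ x ∈ P, ∑ i : B, g i * (inner ℝ x (l i).1 - (l i).2) =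
        ∑ i : B, g i * (inner ℝ x₀ (l i).1 - (l i).2) := by
      intro x hx
      rw [← sub_eq_zero, ← sum_sub_distrib]
      have h1 : ∀ i : B, g i * (inner ℝ x (l i).1 - (l i).2) - g i * (inner ℝ x₀ (l i).1 - (l i).2)
          = inner ℝ (x - x₀) (g i • ((D.orthogonalProjectionOnto (l i).1 : D) :
            EuclideanSpace ℝ (Fin n))) := by
        intro i
        rw [real_inner_smul_right]
        have h2 : inner ℝ (x - x₀) ((D.orthogonalProjectionOnto (l i).1 : D) :
            EuclideanSpace ℝ (Fin n)) = inner ℝ (x - x₀) (l i).1 := by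
          have h3 : D.starProjection (x - x₀) = x - x₀ :=
            Submodule.starProjection_eq_self_iff.2 (hP x hx)
          change inner ℝ (x - x₀) (D.starProjection (l i).1) = _
          rw [← Submodule.inner_starProjection_left_eq_right, h3]
        rw [h2, inner_sub_left]
        ring
      rw [sum_congr rfl (fun i _ => h1 i), ← inner_sum]
      have h2 : ∑ i : B, g i • ((D.orthogonalProjectionOnto (l i).1 : D) :
            EuclideanSpace ℝ (Fin n)) = 0 := by
        have h3 := congrArg (Subtype.val) hg
        simpa using h3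
      rw [h2, inner_zero_right]
    set κ : ℝ := ∑ i : B, g i * (inner ℝ x₀ (l i).1 - (l i).2) with hκ
    -- choose the sign
    obtain ⟨ε, hε, hεκ⟩ : ∃ ε : ℝ, ε ≠ 0 ∧ ε * κ ≤ 0 := by
      rcases le_total κ 0 with h | h
      · exact ⟨1, one_ne_zero, by linarith⟩
      · exact ⟨-1, by norm_num, by linarith⟩
    obtain ⟨A, hA, hAB⟩ := hB (t := B.attach.filter (fun i => 0 < ε * g i) |>.image Subtype.val) (by
      intro x hx
      simp only [mem_image, mem_filter, mem_attach, true_and] at hx
      obtain ⟨y, -, rfl⟩ := hx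
      exact y.2)
    obtain ⟨x, hx, rfl⟩ := mem_image.1 hA
    have hside : ∀ i : B, side (l i) x ↔ 0 < ε * g i := by
      intro i
      have h1 : (i : Fin r) ∈ B ∩ f x ↔
          (i : Fin r) ∈ (B.attach.filter (fun i => 0 < ε * g i)).image Subtype.val := by
        rw [hAB]
      simp only [mem_inter, i.2, true_and, hf, mem_filter, mem_univ, mem_image, mem_attach,
        Subtype.exists] at h1
      rw [h1]
      constructor
      · rintro ⟨a, b, hab, rfl⟩
        exact hab
      · intro hx
        exact ⟨i, i.2, hx, rfl⟩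
    have hterm : ∀ i : B, 0 ≤ ε * g i * (inner ℝ x (l i).1 - (l i).2) ∧
        (g i ≠ 0 → 0 < ε * g i * (inner ℝ x (l i).1 - (l i).2)) := by
      intro i
      have hne := hl i x hx
      rcases lt_trichotomy (ε * g i) 0 with hi | hi | hi
      · have h1 : ¬ side (l i) x := fun h' => absurd ((hside i).1 h') (not_lt.2 hi.le)
        unfold side at h1
        have h2 : inner ℝ x (l i).1 < (l i).2 := lt_of_le_of_ne (not_lt.1 h1) hne
        have := mul_pos_of_neg_of_neg hi (sub_neg.2 h2)
        exact ⟨this.le, fun _ => this⟩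
      · rw [hi]
        refine ⟨by simp, fun h => ?_⟩
        rcases mul_eq_zero.1 hi with h' | h'
        · exact absurd h' hε
        · exact absurd h' h
      · have h1 : side (l i) x := (hside i).2 hi
        unfold side at h1
        have := mul_pos hi (sub_pos.2 h1)
        exact ⟨this.le, fun _ => this⟩
    have hsum : 0 < ∑ i : B, ε * g i * (inner ℝ x (l i).1 - (l i).2) :=
      sum_pos' (fun i _ => (hterm i).1) ⟨i₀, mem_univ _, (hterm i₀).2 hi₀⟩
    have hz : ∑ i : B, ε * g i * (inner ℝ x (l i).1 - (l i).2) = ε * κ := by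
      rw [← hconst x hx, mul_sum]
      apply sum_congr rfl
      intro i _
      ring
    linarith

end Pool.Agent.U527.Lc
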