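import Pool.Agent.U527.Lc.Vc

set_option autoImplicit false

/-!
Walks with low crossing number (Welzl, Chazelle–Welzl): every finite set of `N` points of a
`d`-dimensional affine space is covered by a walk which crosses every hyperplane at most
`C N^(1-1/d) (1 + log N)^2` times.
-/

open Finset

namespace Pool.Agent.U527.Lc

variable {n : ℕ}



/-- The hyperplane separates the two points. -/
def Sep (h : EuclideanSpace ℝ (Fin n) × ℝ) (x y : EuclideanSpace ℝ (Fin n)) : Prop :=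
  ¬ (side h x ↔ side h y)

theorem Sep.comm {h : EuclideanSpace ℝ (Fin n) × ℝ} {x y : EuclideanSpace ℝ (Fin n)} :
    Sep h x y ↔ Sep h y x := by
  unfold Sep
  tauto

open Classical in
/-- The number of separated consecutive pairs. -/
noncomputable def cr (h : EuclideanSpace ℝ (Fin n) × ℝ) : List (EuclideanSpace ℝ (Fin n)) → ℕ
  | [] => 0
  | [_] => 0
  | x :: y :: l => (if Sep h x y then 1 else 0) + cr h (y :: l)

open Classical in
theorem cr_cons_cons (h : EuclideanSpace ℝ (Fin n) × ℝ) (x y : EuclideanSpace ℝ (Fin n))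
    (l : List (EuclideanSpace ℝ (Fin n))) :
    cr h (x :: y :: l) = (if Sep h x y then 1 else 0) + cr h (y :: l) := rfl

open Classical in
/-- Inserting an excursion from `q` to `p`. -/
theorem cr_insert (h : EuclideanSpace ℝ (Fin n) × ℝ) (p q : EuclideanSpace ℝ (Fin n))
    (A B : List (EuclideanSpace ℝ (Fin n))) :
    cr h (A ++ q :: p :: q :: B) = cr h (A ++ q :: B) + 2 * (if Sep h p q then 1 else 0) := by
  induction A with
  | nil =>
    simp only [List.nil_append, cr_cons_cons]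
    have : (if Sep h q p then 1 else 0) = (if Sep h p q then 1 else 0) := by
      rw [if_congr Sep.comm rfl rfl]
    rw [this]
    ring
  | cons a A ih =>
    cases A with
    | nil =>
      simp only [List.nil_append, List.cons_append, cr_cons_cons] at ih ⊢
      omega
    | cons b A =>
      simp only [List.cons_append, cr_cons_cons] at ih ⊢
      omega

/-- Two hyperplanes with the same positive points have the same crossings. -/
theorem cr_congr {h h' : EuclideanSpace ℝ (Fin n) × ℝ} {L : List (EuclideanSpace ℝ (Fin n))}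
    (hh : ∀ x ∈ L, side h x ↔ side h' x) : cr h L = cr h' L := by
  classical
  induction L with
  | nil => rfl
  | cons x L ih =>
    cases L with
    | nil => rfl
    | cons y L =>
      rw [cr_cons_cons, cr_cons_cons, ih (fun z hz => hh z (List.mem_cons_of_mem _ hz))]
      have h1 : Sep h x y ↔ Sep h' x y := by
        unfold Sep
        rw [hh x (by simp), hh y (by simp)]
      rw [if_congr h1 rfl rfl]

open Classical in
/-- The weight of the hyperplanes separating two points. -/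
noncomputable def sw (H : Finset (EuclideanSpace ℝ (Fin n) × ℝ))
    (w : EuclideanSpace ℝ (Fin n) × ℝ → ℝ) (x y : EuclideanSpace ℝ (Fin n)) : ℝ :=
  ∑ h ∈ H.filter (fun h => Sep h x y), w h

open Classical in
/-- The greedy choice of hyperplanes. -/
theorem greedy {H : Finset (EuclideanSpace ℝ (Fin n) × ℝ)} (hH : H.Nonempty)
    {w : EuclideanSpace ℝ (Fin n) × ℝ → ℝ} (hw : ∀ h ∈ H, 0 < w h) {ε : ℝ} (hε1 : ε ≤ 1)
    (S : Finset (EuclideanSpace ℝ (Fin n) × EuclideanSpace ℝ (Fin n)))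
    (hS : ∀ q ∈ S, ε * ∑ h ∈ H, w h ≤ sw H w q.1 q.2) (r : ℕ) :
    ∃ l : Fin r → EuclideanSpace ℝ (Fin n) × ℝ, (∀ i, l i ∈ H) ∧
      ((S.filter (fun q => ∀ i, ¬ Sep (l i) q.1 q.2)).card : ℝ) ≤ (1 - ε) ^ r * S.card := by
  induction r with
  | zero =>
    refine ⟨Fin.elim0, fun i => i.elim0, ?_⟩
    simp only [pow_zero, one_mul, Nat.cast_le]
    exact card_filter_le _ _
  | succ r ih =>
    obtain ⟨l, hl, hc⟩ := ih
    set T := S.filter (fun q => ∀ i, ¬ Sep (l i) q.1 q.2) with hT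
    have hex : ∃ h ∈ H, ε * (T.card : ℝ) ≤ ((T.filter (fun q => Sep h q.1 q.2)).card : ℝ) := by
      by_contra hcon
      push Not at hcon
      have h1 : ∑ h ∈ H, w h * ((T.filter (fun q => Sep h q.1 q.2)).card : ℝ) <
          ∑ h ∈ H, w h * (ε * (T.card : ℝ)) := by
        apply sum_lt_sum_of_nonempty hH
        intro h hh
        exact mul_lt_mul_of_pos_left (hcon h hh) (hw h hh)
      have h2 : ∑ h ∈ H, w h * ((T.filter (fun q => Sep h q.1 q.2)).card : ℝ) =
          ∑ q ∈ T, sw H w q.1 q.2 := by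
        unfold sw
        simp_rw [sum_filter, card_filter, Nat.cast_sum, mul_sum]
        rw [sum_comm]
        apply sum_congr rfl
        intro q _
        apply sum_congr rfl
        intro h _
        split_ifs <;> simp
      have h3 : ∑ q ∈ T, ε * ∑ h ∈ H, w h ≤ ∑ q ∈ T, sw H w q.1 q.2 :=
        sum_le_sum (fun q hq => hS q (mem_of_mem_filter q hq))
      rw [sum_const, nsmul_eq_mul] at h3
      rw [← sum_mul] at h1
      rw [h2] at h1
      nlinarith
    obtain ⟨h, hh, hcard⟩ := hex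
    refine ⟨Fin.cons h l, fun i => ?_, ?_⟩
    · refine Fin.cases ?_ (fun j => ?_) i
      · simpa using hh
      · simpa using hl j
    · have h1 : S.filter (fun q => ∀ i, ¬ Sep ((Fin.cons h l : Fin (r + 1) → EuclideanSpace ℝ (Fin n) × ℝ) i) q.1 q.2) =
          T.filter (fun q => ¬ Sep h q.1 q.2) := by
        ext q
        simp only [hT, mem_filter, Fin.forall_fin_succ, Fin.cons_zero, Fin.cons_succ]
        tauto
      rw [h1]
      have h2 : ((T.filter (fun q => Sep h q.1 q.2)).card : ℝ) +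
          ((T.filter (fun q => ¬ Sep h q.1 q.2)).card : ℝ) = T.card := by
        exact_mod_cast card_filter_add_card_filter_not (s := T) (fun q => Sep h q.1 q.2)
      calc ((T.filter (fun q => ¬ Sep h q.1 q.2)).card : ℝ) ≤ (1 - ε) * T.card := by linarith
        _ ≤ (1 - ε) * ((1 - ε) ^ r * S.card) := by
          apply mul_le_mul_of_nonneg_left hc
          linarith
        _ = _ := by ring

theorem sw_le {H : Finset (EuclideanSpace ℝ (Fin n) × ℝ)}
    {w : EuclideanSpace ℝ (Fin n) × ℝ → ℝ} (hw : ∀ h ∈ H, 0 < w h)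
    (x y : EuclideanSpace ℝ (Fin n)) : sw H w x y ≤ ∑ h ∈ H, w h := by
  classical
  unfold sw
  apply sum_le_sum_of_subset_of_nonneg (filter_subset _ _)
  intro h hh _
  exact (hw h hh).le

/-- A short edge. -/
theorem short_edge {H : Finset (EuclideanSpace ℝ (Fin n) × ℝ)} (hH : H.Nonempty)
    {w : EuclideanSpace ℝ (Fin n) × ℝ → ℝ} (hw : ∀ h ∈ H, 0 < w h) {ε : ℝ} (hε1 : ε ≤ 1)
    {d r : ℕ} (D : Submodule ℝ (EuclideanSpace ℝ (Fin n))) (hD : Module.finrank ℝ D ≤ d)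
    (x₀ : EuclideanSpace ℝ (Fin n)) (Q : Finset (EuclideanSpace ℝ (Fin n)))
    (hQ : ∀ x ∈ Q, x - x₀ ∈ D) (hgen : ∀ h ∈ H, Generic Q h) (hr : (r + 1) ^ d < Q.card)
    (hε : (1 - ε) ^ r * (Q.card : ℝ) ^ 2 < 1) :
    ∃ x ∈ Q, ∃ y ∈ Q, x ≠ y ∧ sw H w x y ≤ ε * ∑ h ∈ H, w h := by
  classical
  by_contra hcon
  push Not at hcon
  obtain ⟨l, hl, hc⟩ := greedy hH hw hε1 Q.offDiag (fun q hq => by
    rw [mem_offDiag] at hq
    exact (hcon q.1 hq.1 q.2 hq.2.1 hq.2.2).le) r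
  have h0 : (Q.offDiag.filter (fun q => ∀ i, ¬ Sep (l i) q.1 q.2)).card = 0 := by
    have h1 : ((Q.offDiag.filter (fun q => ∀ i, ¬ Sep (l i) q.1 q.2)).card : ℝ) < 1 := by
      refine lt_of_le_of_lt hc (lt_of_le_of_lt ?_ hε)
      apply mul_le_mul_of_nonneg_left _ (pow_nonneg (by linarith) _)
      rw [offDiag_card]
      have : Q.card * Q.card - Q.card ≤ Q.card ^ 2 := by
        rw [sq]
        exact Nat.sub_le _ _
      exact_mod_cast this
    have h2 : (Q.offDiag.filter (fun q => ∀ i, ¬ Sep (l i) q.1 q.2)).card < 1 := by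
      exact_mod_cast h1
    omega
  rw [card_eq_zero, filter_eq_empty_iff] at h0
  have h3 := card_of_separated D hD x₀ hQ l (fun i => hgen _ (hl i)) (by
    intro x hx y hy hxy
    by_contra hne
    apply h0 (x := (x, y)) (mem_offDiag.2 ⟨hx, hy, hne⟩)
    intro i hi
    exact hi (hxy i))
  omega

/-- The bound for the weight of the short edge of a set of `i` points. -/
noncomputable def eb (d i : ℕ) : ℝ := 6 * Real.log i * (i : ℝ) ^ (-(1 / (d : ℝ)))

theorem eb_nonneg (d i : ℕ) : 0 ≤ eb d i := by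
  unfold eb
  have := Real.log_natCast_nonneg i
  positivity

theorem short_edge' {H : Finset (EuclideanSpace ℝ (Fin n) × ℝ)} (hH : H.Nonempty)
    {w : EuclideanSpace ℝ (Fin n) × ℝ → ℝ} (hw : ∀ h ∈ H, 0 < w h)
    {d : ℕ} (hd : 1 ≤ d) (D : Submodule ℝ (EuclideanSpace ℝ (Fin n)))
    (hD : Module.finrank ℝ D ≤ d)
    (x₀ : EuclideanSpace ℝ (Fin n)) (Q : Finset (EuclideanSpace ℝ (Fin n)))
    (hQ : ∀ x ∈ Q, x - x₀ ∈ D) (hgen : ∀ h ∈ H, Generic Q h) (hQ2 : 2 ≤ Q.card) :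
    ∃ x ∈ Q, ∃ y ∈ Q, x ≠ y ∧ sw H w x y ≤ eb d Q.card * ∑ h ∈ H, w h := by
  have hW : 0 ≤ ∑ h ∈ H, w h := sum_nonneg (fun h hh => (hw h hh).le)
  have hlog2 : Real.log 2 ≤ Real.log Q.card :=
    Real.log_le_log (by norm_num) (by exact_mod_cast hQ2)
  have hl2 := Real.log_two_gt_d9
  have hi0 : (0:ℝ) < Q.card := by
    have : 0 < Q.card := by omega
    exact_mod_cast this
  have hd0 : (0:ℝ) < d := by exact_mod_cast hd
  set i := Q.card with hi
  by_cases h1 : 1 ≤ eb d i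
  · obtain ⟨x, hx, y, hy, hxy⟩ := Finset.one_lt_card.1 (show 1 < Q.card by omega)
    refine ⟨x, hx, y, hy, hxy, (sw_le hw x y).trans ?_⟩
    exact le_mul_of_one_le_left hW h1
  push Not at h1
  set t : ℝ := (i:ℝ) ^ (1 / (d:ℝ)) with ht
  have ht0 : 0 < t := by positivity
  have hti : (i:ℝ) ^ (-(1 / (d:ℝ))) = t⁻¹ := by rw [ht, Real.rpow_neg hi0.le]
  have hE : eb d i = 6 * Real.log i / t := by
    unfold eb
    rw [hti]
    ring
  have ht4 : 4 < t := by
    rw [hE, div_lt_one ht0] at h1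
    linarith
  -- the number of hyperplanes
  obtain ⟨r, hr⟩ : ∃ r : ℕ, r + 2 = ⌈t⌉₊ := by
    have : 4 < ⌈t⌉₊ := by
      rw [Nat.lt_ceil]
      exact_mod_cast ht4
    exact ⟨⌈t⌉₊ - 2, by omega⟩
  have hrt : ((r:ℝ) + 1) < t := by
    have h2 : r + 1 < ⌈t⌉₊ := by omega
    rw [Nat.lt_ceil] at h2
    exact_mod_cast h2
  have hrt2 : t ≤ (r:ℝ) + 2 := by
    have h2 := Nat.le_ceil t
    rw [← hr] at h2
    exact_mod_cast h2
  have hr2 : t / 2 ≤ r := by linarith
  have hpow : (r + 1) ^ d < i := by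
    have h2 : ((r:ℝ) + 1) ^ d < t ^ d := pow_lt_pow_left₀ hrt (by positivity) (by omega)
    have h3 : t ^ d = i := by
      rw [ht, ← Real.rpow_natCast, ← Real.rpow_mul hi0.le, one_div, inv_mul_cancel₀ hd0.ne',
        Real.rpow_one]
    rw [h3] at h2
    exact_mod_cast h2
  apply short_edge hH hw h1.le D hD x₀ Q hQ hgen hpow
  have h5 : (1 - eb d i) ^ r ≤ Real.exp (-(eb d i)) ^ r := by
    apply pow_le_pow_left₀ (by linarith)
    have := Real.add_one_le_exp (-(eb d i))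
    linarith
  have h6 : Real.exp (-(eb d i)) ^ r = Real.exp (-(eb d i * r)) := by
    rw [← Real.exp_nat_mul]
    congr 1
    ring
  have h7 : 3 * Real.log i ≤ eb d i * r := by
    rw [hE, div_mul_eq_mul_div, le_div_iff₀ ht0]
    have : 0 ≤ Real.log i := by linarith
    nlinarith
  have h8 : Real.exp (-(3 * Real.log i)) = ((i:ℝ) ^ 3)⁻¹ := by
    have h9 : 3 * Real.log i = Real.log ((i:ℝ) ^ 3) := by
      rw [Real.log_pow]
      norm_num
    rw [Real.exp_neg, h9, Real.exp_log (by positivity)]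
  calc (1 - eb d i) ^ r * (i:ℝ) ^ 2 ≤ Real.exp (-(eb d i * r)) * (i:ℝ) ^ 2 := by
        rw [← h6]
        gcongr
    _ ≤ Real.exp (-(3 * Real.log i)) * (i:ℝ) ^ 2 := by
        gcongr
    _ = (i:ℝ)⁻¹ := by
        rw [h8]
        field_simp
    _ < 1 := by
        apply inv_lt_one_of_one_lt₀
        have : 1 < i := by omega
        exact_mod_cast this

open Classical in
/-- The construction of the walk. -/
theorem exists_walk {H : Finset (EuclideanSpace ℝ (Fin n) × ℝ)} (hH : H.Nonempty)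
    {d : ℕ} (hd : 1 ≤ d) (D : Submodule ℝ (EuclideanSpace ℝ (Fin n)))
    (hD : Module.finrank ℝ D ≤ d)
    (x₀ : EuclideanSpace ℝ (Fin n)) (m : ℕ) :
    ∀ (Q : Finset (EuclideanSpace ℝ (Fin n))), Q.card = m + 1 → (∀ x ∈ Q, x - x₀ ∈ D) →
    (∀ h ∈ H, Generic Q h) → ∀ (w : EuclideanSpace ℝ (Fin n) × ℝ → ℝ), (∀ h ∈ H, 0 < w h) →
    ∃ (L : List (EuclideanSpace ℝ (Fin n))) (κ : EuclideanSpace ℝ (Fin n) × ℝ → ℕ),
      (∀ x, x ∈ L ↔ x ∈ Q) ∧ (∀ h, cr h L ≤ 2 * κ h) ∧
      ∑ h ∈ H, w h * 2 ^ κ h ≤ (∑ h ∈ H, w h) * ∏ i ∈ range m, (1 + eb d (i + 2)) := by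
  induction m with
  | zero =>
    intro Q hQ _ _ w hw
    obtain ⟨x, rfl⟩ := card_eq_one.1 hQ
    refine ⟨[x], fun _ => 0, ?_, ?_, ?_⟩
    · intro y
      simp
    · intro h
      simp [cr]
    · simp
  | succ m ih =>
    intro Q hQ hQD hgen w hw
    obtain ⟨p, hp, q, hq, hpq, hsw⟩ := short_edge' hH hw hd D hD x₀ Q hQD hgen (by omega)
    set Q' := Q.erase p with hQ'
    have hQc : Q'.card = m + 1 := by
      rw [hQ', card_erase_of_mem hp, hQ]
      rfl
    have hqQ' : q ∈ Q' := mem_erase.2 ⟨hpq.symm, hq⟩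
    set w' : EuclideanSpace ℝ (Fin n) × ℝ → ℝ := fun h => w h * 2 ^ (if Sep h p q then 1 else 0 : ℕ) with hw'
    have hw'0 : ∀ h ∈ H, 0 < w' h := fun h hh => mul_pos (hw h hh) (by positivity)
    obtain ⟨L, κ, hL, hcr, hsum⟩ := ih Q' hQc (fun x hx => hQD x (mem_of_mem_erase hx))
      (fun h hh x hx => hgen h hh x (mem_of_mem_erase hx)) w' hw'0
    obtain ⟨A, B, hAB⟩ := List.append_of_mem ((hL q).2 hqQ')
    refine ⟨A ++ q :: p :: q :: B, fun h => κ h + (if Sep h p q then 1 else 0), ?_, ?_, ?_⟩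
    · intro x
      have h1 : x ∈ L ↔ x ∈ A ++ q :: B := by rw [hAB]
      have h2 : x ∈ A ++ q :: p :: q :: B ↔ x ∈ A ++ q :: B ∨ x = p := by
        simp only [List.mem_append, List.mem_cons]
        tauto
      rw [h2, ← h1, hL, hQ', mem_erase]
      constructor
      · rintro (h | rfl)
        · exact h.2
        · exact hp
      · intro hx
        by_cases hxp : x = p
        · exact Or.inr hxp
        · exact Or.inl ⟨hxp, hx⟩
    · intro h
      rw [cr_insert, ← hAB]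
      have := hcr h
      beta_reduce
      omega
    · have h1 : ∑ h ∈ H, w h * 2 ^ (κ h + if Sep h p q then 1 else 0) =
          ∑ h ∈ H, w' h * 2 ^ κ h := by
        apply sum_congr rfl
        intro h _
        simp only [hw']
        rw [pow_add]
        ring
      rw [h1]
      refine hsum.trans ?_
      have h2 : ∑ h ∈ H, w' h = ∑ h ∈ H, w h + sw H w p q := by
        unfold sw
        rw [sum_filter, ← sum_add_distrib]
        apply sum_congr rfl
        intro h _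
        simp only [hw']
        split_ifs
        · ring
        · ring
      rw [h2, prod_range_succ]
      rw [hQ] at hsw
      have hpr : 0 ≤ ∏ i ∈ range m, (1 + eb d (i + 2)) :=
        prod_nonneg (fun i _ => by linarith [eb_nonneg d (i + 2)])
      calc (∑ h ∈ H, w h + sw H w p q) * ∏ i ∈ range m, (1 + eb d (i + 2))
          ≤ (∑ h ∈ H, w h + eb d (m + 2) * ∑ h ∈ H, w h) *
            ∏ i ∈ range m, (1 + eb d (i + 2)) := by
            apply mul_le_mul_of_nonneg_right _ hpr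
            have : m + 1 + 1 = m + 2 := rfl
            rw [this] at hsw
            linarith
        _ = _ := by ring

/-- The sum of the bounds. -/
theorem sum_eb {d : ℕ} (hd : 1 ≤ d) (m : ℕ) :
    ∑ i ∈ range m, eb d (i + 2) ≤ 6 * ((m + 1 : ℕ) : ℝ) ^ (1 - 1 / (d:ℝ)) *
      (1 + Real.log ((m + 1 : ℕ) : ℝ)) ^ 2 := by
  set N : ℝ := ((m + 1 : ℕ) : ℝ) with hN
  have hN1 : 1 ≤ N := by rw [hN]; exact_mod_cast Nat.le_add_left 1 m
  have hN0 : 0 < N := by linarith
  have hlogN : 0 ≤ Real.log N := Real.log_nonneg hN1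
  have hd0 : (0:ℝ) < d := by exact_mod_cast hd
  have hd1 : (1:ℝ) ≤ d := by exact_mod_cast hd
  have hα : 0 ≤ 1 - 1 / (d:ℝ) := by
    rw [sub_nonneg, div_le_one hd0]
    exact hd1
  have h1 : ∀ i ∈ range m, eb d (i + 2) ≤ 6 * Real.log N * N ^ (1 - 1 / (d:ℝ)) *
      ((((i + 1 : ℕ):ℝ) + 1)⁻¹) := by
    intro i hi
    rw [mem_range] at hi
    have hi0 : (0:ℝ) < ((i + 2 : ℕ) : ℝ) := by positivity
    have hiN : ((i + 2 : ℕ) : ℝ) ≤ N := by
      rw [hN]
      exact_mod_cast (by omega : i + 2 ≤ m + 1)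
    unfold eb
    have e1 : ((i + 2 : ℕ) : ℝ) ^ (-(1 / (d:ℝ))) =
        ((i + 2 : ℕ) : ℝ) ^ (1 - 1 / (d:ℝ)) * ((((i + 1 : ℕ):ℝ) + 1)⁻¹) := by
      have e2 : (((i + 1 : ℕ):ℝ) + 1) = ((i + 2 : ℕ) : ℝ) := by push_cast; ring
      rw [e2, ← Real.rpow_neg_one, ← Real.rpow_add hi0]
      congr 1
      ring
    rw [e1]
    have h2 : Real.log ((i + 2 : ℕ) : ℝ) ≤ Real.log N := Real.log_le_log hi0 hiN
    have h3 : ((i + 2 : ℕ) : ℝ) ^ (1 - 1 / (d:ℝ)) ≤ N ^ (1 - 1 / (d:ℝ)) :=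
      Real.rpow_le_rpow hi0.le hiN hα
    have h4 : 0 ≤ Real.log ((i + 2 : ℕ) : ℝ) := Real.log_natCast_nonneg _
    calc 6 * Real.log ((i + 2 : ℕ) : ℝ) *
          (((i + 2 : ℕ) : ℝ) ^ (1 - 1 / (d:ℝ)) * ((((i + 1 : ℕ):ℝ) + 1)⁻¹))
        ≤ 6 * Real.log N * (N ^ (1 - 1 / (d:ℝ)) * ((((i + 1 : ℕ):ℝ) + 1)⁻¹)) := by
          gcongr
      _ = _ := by ring
  refine (sum_le_sum h1).trans ?_
  rw [← mul_sum]
  have hH : ∑ i ∈ range m, ((((i + 1 : ℕ):ℝ) + 1)⁻¹) ≤ 1 + Real.log N := by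
    have h2 := harmonic_le_one_add_log (m + 1)
    have h3 : ((harmonic (m + 1) : ℚ) : ℝ) = ∑ i ∈ range (m + 1), (((i:ℝ) + 1)⁻¹) := by
      rw [harmonic]
      push_cast
      rfl
    rw [h3, sum_range_succ'] at h2
    rw [hN]
    have h4 : (0:ℝ) ≤ (((0:ℕ):ℝ) + 1)⁻¹ := by positivity
    linarith
  have hK : 0 ≤ 6 * Real.log N * N ^ (1 - 1 / (d:ℝ)) := by positivity
  calc 6 * Real.log N * N ^ (1 - 1 / (d:ℝ)) * ∑ i ∈ range m, ((((i + 1 : ℕ):ℝ) + 1)⁻¹)
      ≤ 6 * Real.log N * N ^ (1 - 1 / (d:ℝ)) * (1 + Real.log N) := by gcongr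
    _ ≤ 6 * (1 + Real.log N) * N ^ (1 - 1 / (d:ℝ)) * (1 + Real.log N) := by
        gcongr
        linarith
    _ = _ := by ring

/-- **Walks with low crossing number.** -/
theorem walk {d : ℕ} (hd : 1 ≤ d) (D : Submodule ℝ (EuclideanSpace ℝ (Fin n)))
    (hD : Module.finrank ℝ D ≤ d) (x₀ : EuclideanSpace ℝ (Fin n))
    (P : Finset (EuclideanSpace ℝ (Fin n))) (hP : P.Nonempty) (hPD : ∀ x ∈ P, x - x₀ ∈ D) :
    ∃ L : List (EuclideanSpace ℝ (Fin n)), (∀ x, x ∈ L ↔ x ∈ P) ∧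
      ∀ h, Generic P h → (cr h L : ℝ) ≤ 4 * ((n:ℝ) + 7) * ((P.card : ℝ) ^ (1 - 1 / (d:ℝ)) *
        (1 + Real.log P.card) ^ 2) := by
  classical
  -- representatives of the cuts
  choose f hf using fun A : cuts P => mem_cuts.1 A.2
  set H : Finset (EuclideanSpace ℝ (Fin n) × ℝ) := (cuts P).attach.image f with hHdef
  have hHgen : ∀ h ∈ H, Generic P h := by
    intro h hh
    obtain ⟨A, -, rfl⟩ := mem_image.1 hh
    exact (hf A).1
  have hHcard : H.card ≤ (P.card + 1) ^ (n + 1) := by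
    refine card_image_le.trans ?_
    rw [card_attach]
    exact card_cuts P
  have hrep : ∀ h, Generic P h → ∃ h' ∈ H, pos P h' = pos P h := by
    intro h hh
    have hA : pos P h ∈ cuts P := mem_cuts.2 ⟨h, hh, rfl⟩
    exact ⟨f ⟨_, hA⟩, mem_image.2 ⟨⟨_, hA⟩, mem_attach _ _, rfl⟩, (hf ⟨_, hA⟩).2⟩
  have hHne : H.Nonempty := by
    obtain ⟨h', hh', -⟩ := hrep (0, 1) (fun x _ => by simp)
    exact ⟨h', hh'⟩
  obtain ⟨m, hm⟩ : ∃ m, P.card = m + 1 := ⟨P.card - 1, by
    have := hP.card_pos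
    omega⟩
  obtain ⟨L, κ, hL, hcr, hsum⟩ := exists_walk hHne hd D hD x₀ m P hm hPD hHgen (fun _ => 1)
    (fun _ _ => one_pos)
  refine ⟨L, hL, fun h hh => ?_⟩
  obtain ⟨h', hh', hpos⟩ := hrep h hh
  have hcr' : cr h L = cr h' L := by
    apply cr_congr
    intro x hx
    have hxP := (hL x).1 hx
    have h1 : x ∈ pos P h' ↔ x ∈ pos P h := by rw [hpos]
    rw [mem_pos, mem_pos] at h1
    tauto
  rw [hcr']
  set N : ℝ := (P.card : ℝ) with hN
  have hN1 : 1 ≤ N := by rw [hN, hm]; exact_mod_cast Nat.le_add_left 1 m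
  have hN0 : 0 < N := by linarith
  have hlogN : 0 ≤ Real.log N := Real.log_nonneg hN1
  have hd0 : (0:ℝ) < d := by exact_mod_cast hd
  have hd1 : (1:ℝ) ≤ d := by exact_mod_cast hd
  have hα : 0 ≤ 1 - 1 / (d:ℝ) := by
    rw [sub_nonneg, div_le_one hd0]
    exact hd1
  have hNα : 1 ≤ N ^ (1 - 1 / (d:ℝ)) := Real.one_le_rpow hN1 hα
  -- the exponential bound
  have h1 : (2:ℝ) ^ κ h' ≤ (H.card : ℝ) * ∏ i ∈ range m, (1 + eb d (i + 2)) := by
    refine le_trans ?_ (hsum.trans (le_of_eq ?_))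
    · rw [← one_mul ((2:ℝ) ^ κ h')]
      exact single_le_sum (f := fun h => (1:ℝ) * 2 ^ κ h) (fun h _ => by positivity) hh'
    · simp
  have h2 : ∏ i ∈ range m, (1 + eb d (i + 2)) ≤ Real.exp (∑ i ∈ range m, eb d (i + 2)) := by
    rw [Real.exp_sum]
    apply prod_le_prod
    · intro i _
      linarith [eb_nonneg d (i + 2)]
    · intro i _
      have := Real.add_one_le_exp (eb d (i + 2))
      linarith
  have h3 : (H.card : ℝ) ≤ (N + 1) ^ (n + 1) := by
    rw [hN]
    exact_mod_cast hHcard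
  have h4 : (2:ℝ) ^ κ h' ≤ (N + 1) ^ (n + 1) * Real.exp (∑ i ∈ range m, eb d (i + 2)) := by
    refine h1.trans (mul_le_mul h3 h2 (prod_nonneg fun i _ => ?_) (by positivity))
    linarith [eb_nonneg d (i + 2)]
  have h5 : (κ h' : ℝ) * Real.log 2 ≤ (n + 1) * Real.log (N + 1) +
      ∑ i ∈ range m, eb d (i + 2) := by
    have h6 := Real.log_le_log (by positivity) h4
    rw [Real.log_pow, Real.log_mul (by positivity) (by positivity), Real.log_pow, Real.log_exp] at h6
    push_cast at h6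
    exact h6
  have h7 : Real.log (N + 1) ≤ 1 + Real.log N := by
    have h8 : N + 1 ≤ Real.exp 1 * N := by
      have := Real.add_one_le_exp (1:ℝ)
      nlinarith
    calc Real.log (N + 1) ≤ Real.log (Real.exp 1 * N) := Real.log_le_log (by positivity) h8
      _ = _ := by rw [Real.log_mul (by positivity) (by positivity), Real.log_exp]
  have h9 := sum_eb hd m
  rw [← hm, ← hN] at h9
  set Y : ℝ := N ^ (1 - 1 / (d:ℝ)) * (1 + Real.log N) ^ 2 with hY
  have hYge : 1 + Real.log N ≤ Y := by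
    rw [hY]
    have : 1 + Real.log N ≤ (1 + Real.log N) ^ 2 := by nlinarith
    calc 1 + Real.log N ≤ 1 * (1 + Real.log N) ^ 2 := by linarith
      _ ≤ _ := by gcongr
  have hY0 : 0 ≤ Y := by linarith
  have h10 : (κ h' : ℝ) * Real.log 2 ≤ ((n:ℝ) + 7) * Y := by
    have h11 : ((n:ℝ) + 1) * Real.log (N + 1) ≤ ((n:ℝ) + 1) * Y := by
      gcongr
      linarith
    have h12 : 6 * N ^ (1 - 1 / (d:ℝ)) * (1 + Real.log N) ^ 2 = 6 * Y := by rw [hY]; ring
    rw [h12] at h9
    linarith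
  have hl2 := Real.log_two_gt_d9
  have h13 : (κ h' : ℝ) ≤ 2 * (((n:ℝ) + 7) * Y) := by
    have h14 : (0:ℝ) ≤ κ h' := by positivity
    nlinarith
  have h15 : (cr h' L : ℝ) ≤ 2 * κ h' := by exact_mod_cast hcr h'
  linarith

end Pool.Agent.U527.Lc
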